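import Mathlib

set_option autoImplicit false

open Filter Topology Set

namespace Pool.Agent.W5h70.PG

/-- `D f = g` for the derivation `D = ν⁻¹ d/dt` -/
def HD {V : Type*} [NormedAddCommGroup V] [NormedSpace ℝ V] (ν : ℝ → ℝ) (f g : ℝ → V) : Prop :=
  ∀ t, HasDerivAt f (ν t • g t) t

section HD

variable {V W : Type*} [NormedAddCommGroup V] [NormedSpace ℝ V] [NormedAddCommGroup W]
  [NormedSpace ℝ W] {ν : ℝ → ℝ}

theorem HD.unique (hν : ∀ t, ν t ≠ 0) {f g g' : ℝ → V} (h : HD ν f g) (h' : HD ν f g') (t : ℝ) :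
    g t = g' t := by
  have h1 := (h t).unique (h' t)
  exact smul_right_injective V (hν t) h1

theorem HD.add {f g f' g' : ℝ → V} (h : HD ν f g) (h' : HD ν f' g') :
    HD ν (fun t => f t + f' t) (fun t => g t + g' t) := fun t => by
  rw [smul_add]
  exact (h t).add (h' t)

theorem HD.sub {f g f' g' : ℝ → V} (h : HD ν f g) (h' : HD ν f' g') :
    HD ν (fun t => f t - f' t) (fun t => g t - g' t) := fun t => by
  rw [smul_sub]
  exact (h t).sub (h' t)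

theorem HD.const_smul {f g : ℝ → V} (c : ℝ) (h : HD ν f g) :
    HD ν (fun t => c • f t) (fun t => c • g t) := fun t => by
  have := (h t).const_smul c
  rwa [smul_comm] at this

theorem HD.smul {f g : ℝ → V} {a b : ℝ → ℝ} (ha : HD ν a b) (h : HD ν f g) :
    HD ν (fun t => a t • f t) (fun t => b t • f t + a t • g t) := fun t => by
  refine ((ha t).smul (h t)).congr_deriv ?_
  rw [smul_add, smul_smul, smul_smul, smul_smul, smul_eq_mul, mul_comm (a t) (ν t)]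
  abel

theorem HD.mul {a b a' b' : ℝ → ℝ} (ha : HD ν a b) (ha' : HD ν a' b') :
    HD ν (fun t => a t * a' t) (fun t => b t * a' t + a t * b' t) := fun t => by
  refine ((ha t).mul (ha' t)).congr_deriv ?_
  simp only [smul_eq_mul]
  ring

theorem HD.clm (A : V →L[ℝ] W) {f g : ℝ → V} (h : HD ν f g) :
    HD ν (fun t => A (f t)) (fun t => A (g t)) := fun t => by
  refine ((A.hasFDerivAt.comp_hasDerivAt t (h t))).congr_deriv ?_
  rw [map_smul]

theorem HD.congr {f g f' g' : ℝ → V} (h : HD ν f g) (hf : ∀ t, f t = f' t) (hg : ∀ t, g t = g' t) :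
    HD ν f' g' := by
  have e1 : f' = f := funext fun t => (hf t).symm
  have e2 : g' = g := funext fun t => (hg t).symm
  rw [e1, e2]; exact h

theorem HD.const_of_zero {f g : ℝ → V} (h : HD ν f g) (hg : ∀ t, g t = 0) (s t : ℝ) :
    f s = f t := by
  have h1 : ∀ t, HasDerivAt f 0 t := fun t => by
    have := h t
    rwa [hg t, smul_zero] at this
  exact is_const_of_deriv_eq_zero (fun t => (h1 t).differentiableAt) (fun t => (h1 t).deriv) s t

end HD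

/-- determinant of three vectors of `ℝ³` -/
def det3 (u v w : Fin 3 → ℝ) : ℝ :=
  u 0 * (v 1 * w 2 - v 2 * w 1) - u 1 * (v 0 * w 2 - v 2 * w 0) + u 2 * (v 0 * w 1 - v 1 * w 0)

theorem cramer {v0 v1 v2 : Fin 3 → ℝ} (X : Fin 3 → ℝ) :
    det3 v0 v1 v2 • X = det3 X v1 v2 • v0 + det3 v0 X v2 • v1 + det3 v0 v1 X • v2 := by
  ext i
  fin_cases i <;> simp [det3] <;> ring

theorem indep {v0 v1 v2 : Fin 3 → ℝ} (h : det3 v0 v1 v2 = 1) {a b c : ℝ}
    (h0 : a • v0 + b • v1 + c • v2 = 0) : a = 0 ∧ b = 0 ∧ c = 0 := by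
  have e0 := congrFun h0 0
  have e1 := congrFun h0 1
  have e2 := congrFun h0 2
  simp only [Pi.add_apply, Pi.smul_apply, smul_eq_mul, Pi.zero_apply] at e0 e1 e2
  unfold det3 at h
  refine ⟨?_, ?_, ?_⟩
  · have : a * (v0 0 * (v1 1 * v2 2 - v1 2 * v2 1) - v0 1 * (v1 0 * v2 2 - v1 2 * v2 0) +
      v0 2 * (v1 0 * v2 1 - v1 1 * v2 0)) = 0 := by
      linear_combination (v1 1 * v2 2 - v1 2 * v2 1) * e0 - (v1 0 * v2 2 - v1 2 * v2 0) * e1 +
        (v1 0 * v2 1 - v1 1 * v2 0) * e2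
    rwa [h, mul_one] at this
  · have : b * (v0 0 * (v1 1 * v2 2 - v1 2 * v2 1) - v0 1 * (v1 0 * v2 2 - v1 2 * v2 0) +
      v0 2 * (v1 0 * v2 1 - v1 1 * v2 0)) = 0 := by
      linear_combination -(v0 1 * v2 2 - v0 2 * v2 1) * e0 + (v0 0 * v2 2 - v0 2 * v2 0) * e1 -
        (v0 0 * v2 1 - v0 1 * v2 0) * e2
    rwa [h, mul_one] at this
  · have : c * (v0 0 * (v1 1 * v2 2 - v1 2 * v2 1) - v0 1 * (v1 0 * v2 2 - v1 2 * v2 0) +
      v0 2 * (v1 0 * v2 1 - v1 1 * v2 0)) = 0 := by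
      linear_combination (v0 1 * v1 2 - v0 2 * v1 1) * e0 - (v0 0 * v1 2 - v0 2 * v1 0) * e1 +
        (v0 0 * v1 1 - v0 1 * v1 0) * e2
    rwa [h, mul_one] at this

/-- Normalised moving frame of a curve in the projective plane and the matrix of `A` in it. -/
structure Fr (A : (Fin 3 → ℝ) →L[ℝ] (Fin 3 → ℝ)) (ν : ℝ → ℝ) (v0 v1 v2 : ℝ → Fin 3 → ℝ)
    (k0 k1 a0 a1 : ℝ → ℝ) : Prop where
  ν_pos : ∀ t, 0 < ν t
  det : ∀ t, det3 (v0 t) (v1 t) (v2 t) = 1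
  d0 : HD ν v0 v1
  d1 : HD ν v1 v2
  d2 : HD ν v2 (fun t => k0 t • v0 t + k1 t • v1 t)
  hA : ∀ t, A (v0 t) = a0 t • v0 t + a1 t • v1 t + v2 t

namespace Fr

variable {A : (Fin 3 → ℝ) →L[ℝ] (Fin 3 → ℝ)} {ν : ℝ → ℝ} {v0 v1 v2 : ℝ → Fin 3 → ℝ}
  {k0 k1 a0 a1 : ℝ → ℝ}

theorem Av1 (H : Fr A ν v0 v1 v2 k0 k1 a0 a1) {a0' a1' : ℝ → ℝ} (h0 : HD ν a0 a0')
    (h1 : HD ν a1 a1') (t : ℝ) :
    A (v1 t) = (a0' t + k0 t) • v0 t + (a0 t + a1' t + k1 t) • v1 t + a1 t • v2 t := by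
  have e1 := H.d0.clm A
  have e2 := ((h0.smul H.d0).add (h1.smul H.d1)).add H.d2
  have e3 : HD ν (fun t => A (v0 t)) _ := e2.congr (fun t => (H.hA t).symm) (fun t => rfl)
  rw [e1.unique (fun t => (H.ν_pos t).ne') e3 t]
  module

theorem Av2 (H : Fr A ν v0 v1 v2 k0 k1 a0 a1) {a0' a1' b0 b1 b0' b1' : ℝ → ℝ} (h0 : HD ν a0 a0')
    (h1 : HD ν a1 a1') (hb0 : ∀ t, b0 t = a0' t + k0 t) (hb1 : ∀ t, b1 t = a0 t + a1' t + k1 t)
    (h2 : HD ν b0 b0') (h3 : HD ν b1 b1') (t : ℝ) :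
    A (v2 t) = (b0' t + a1 t * k0 t) • v0 t + (b0 t + b1' t + a1 t * k1 t) • v1 t +
      (b1 t + a1' t) • v2 t := by
  have e1 := H.d1.clm A
  have e2 := ((h2.smul H.d0).add (h3.smul H.d1)).add (h1.smul H.d2)
  have e3 : HD ν (fun t => A (v1 t)) _ := e2.congr (fun t => by
    rw [H.Av1 h0 h1 t, hb0, hb1]) (fun t => rfl)
  rw [e1.unique (fun t => (H.ν_pos t).ne') e3 t]
  module

/-- the structure equations -/
theorem structure_eqs (H : Fr A ν v0 v1 v2 k0 k1 a0 a1)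
    {a0' a1' a1'' b0 b1 b0' b1' b1'' k0' k1' b0'' : ℝ → ℝ} (h0 : HD ν a0 a0')
    (h1 : HD ν a1 a1') (h1' : HD ν a1' a1'') (hb0 : ∀ t, b0 t = a0' t + k0 t)
    (hb1 : ∀ t, b1 t = a0 t + a1' t + k1 t)
    (h2 : HD ν b0 b0') (h2' : HD ν b0' b0'') (h3 : HD ν b1 b1') (h3' : HD ν b1' b1'')
    (hk0 : HD ν k0 k0') (hk1 : HD ν k1 k1')
    (t : ℝ) :
    (b0' t + a1 t * k0 t) + (b0' t + b1'' t + a1' t * k1 t + a1 t * k1' t) +
      (b1 t + a1' t) * k1 t = k0 t * a1 t + k1 t * b1 t ∧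
    (b0 t + b1' t + a1 t * k1 t) + (b1' t + a1'' t) = k0 t + k1 t * a1 t := by
  have e1 := H.d2.clm A
  have g0 : HD ν (fun t => b0' t + a1 t * k0 t) (fun t => b0'' t + (a1' t * k0 t + a1 t * k0' t)) :=
    h2'.add (h1.mul hk0)
  have g1 : HD ν (fun t => b0 t + b1' t + a1 t * k1 t)
      (fun t => b0' t + b1'' t + (a1' t * k1 t + a1 t * k1' t)) := (h2.add h3').add (h1.mul hk1)
  have g2 : HD ν (fun t => b1 t + a1' t) (fun t => b1' t + a1'' t) := h3.add h1'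
  have e2 := ((g0.smul H.d0).add (g1.smul H.d1)).add (g2.smul H.d2)
  have e3 : HD ν (fun t => A (v2 t)) _ := e2.congr (fun t => by
    rw [H.Av2 h0 h1 hb0 hb1 h2 h3 t]) (fun t => rfl)
  have e4 := e1.unique (fun t => (H.ν_pos t).ne') e3 t
  simp only [map_add, map_smul] at e4
  rw [H.hA t, H.Av1 h0 h1 t, ← hb0, ← hb1] at e4
  have e5 : (k0 t * a0 t + k1 t * b0 t - (b0'' t + (a1' t * k0 t + a1 t * k0' t)) -
      (b1 t + a1' t) * k0 t) • v0 t +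
      (k0 t * a1 t + k1 t * b1 t - (b0' t + a1 t * k0 t) -
        (b0' t + b1'' t + (a1' t * k1 t + a1 t * k1' t)) - (b1 t + a1' t) * k1 t) • v1 t +
      (k0 t + k1 t * a1 t - (b0 t + b1' t + a1 t * k1 t) - (b1' t + a1'' t)) • v2 t = 0 := by
    have e6 := sub_eq_zero.mpr e4
    rw [← e6]
    module
  obtain ⟨-, e6, e7⟩ := indep (H.det t) e5
  constructor
  · linarith
  · linarith

end Fr

end Pool.Agent.W5h70.PG
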