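import Pool.Agent.W5h70.PG.Even

set_option autoImplicit false

open Filter Topology Set

namespace Pool.Agent.W5h70.PG

namespace Loc

variable {A : (Fin 3 → ℝ) →L[ℝ] (Fin 3 → ℝ)} {ν : ℝ → ℝ} {v0 v1 v2 : ℝ → Fin 3 → ℝ}
  {k0 k1 a0 a1 : ℝ → ℝ} {F : (Fin 3 → ℝ) → ℝ} {Ω : Set (Fin 3 → ℝ)} {J : Set ℝ}

theorem eqs_all (hL : Loc A v0 F Ω J) (H : Fr A ν v0 v1 v2 k0 k1 a0 a1)
    {a0' a1' b0 b1 b0' b1' : ℝ → ℝ}
    (h0 : HD ν a0 a0') (h1 : HD ν a1 a1') (hb0 : ∀ t, b0 t = a0' t + k0 t)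
    (hb1 : ∀ t, b1 t = a0 t + a1' t + k1 t) (h2 : HD ν b0 b0') (h3 : HD ν b1 b1')
    (c1 : Continuous a0') (c2 : Continuous a1') (c3 : Continuous b0') (c4 : Continuous b1')
    (hev : ∀ t ∈ J, ∀ᶠ s in 𝓝 (0 : ℝ), F (v0 t + s • v1 t) = F (v0 t + (-s) • v1 t)) :
    ∀ t ∈ J, a0' t - b1' t = -4 * b0 t ∧
      a1' t * b0 t + a1 t * b0' t = 2 * b0 t * (a0 t - b1 t) := by
  have cv0 : Continuous v0 := H.d0.continuous
  have cv1 : Continuous v1 := H.d1.continuous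
  have ca0 : Continuous a0 := h0.continuous
  have ca1 : Continuous a1 := h1.continuous
  have cb0 : Continuous b0 := h2.continuous
  have cb1 : Continuous b1 := h3.continuous
  let C : ℕ → Set ℝ := fun n => Jᶜ ∪ {t | ∀ s : ℝ, |s| ≤ 1 / ((n : ℝ) + 1) →
    v0 t + s • v1 t ∈ Ω → v0 t + (-s) • v1 t ∈ Ω →
      F (v0 t + s • v1 t) = F (v0 t + (-s) • v1 t)}
  have hC : ∀ n, IsClosed (C n) := by
    intro n
    refine (hL.J_open.isClosed_compl).union ?_
    rw [← isOpen_compl_iff, isOpen_iff_mem_nhds]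
    intro t ht
    rw [mem_compl_iff, mem_ofPred_eq] at ht
    push Not at ht
    obtain ⟨s, hs, m1, m2, hne⟩ := ht
    have q1 : ∀ s : ℝ, ContinuousAt (fun t => v0 t + s • v1 t) t := fun s =>
      (cv0.add (cv1.const_smul s)).continuousAt
    have f1 : ContinuousAt (fun t => F (v0 t + s • v1 t)) t :=
      ContinuousAt.comp (g := F) (hL.c1 m1).continuousAt (q1 s)
    have f2 : ContinuousAt (fun t => F (v0 t + (-s) • v1 t)) t :=
      ContinuousAt.comp (g := F) (hL.c1 m2).continuousAt (q1 (-s))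
    filter_upwards [(q1 s).preimage_mem_nhds (hL.Ω_open.mem_nhds m1),
      (q1 (-s)).preimage_mem_nhds (hL.Ω_open.mem_nhds m2), f1.ne_iff_eventually_ne f2 |>.mp hne]
      with t' n1 n2 n3
    rw [mem_compl_iff, mem_ofPred_eq]
    push Not
    exact ⟨s, hs, n1, n2, n3⟩
  have hU : ⋃ n, C n = univ := by
    rw [eq_univ_iff_forall]
    intro t
    rw [mem_iUnion]
    by_cases ht : t ∈ J
    · obtain ⟨ε, hε, h4⟩ := Metric.eventually_nhds_iff.mp (hev t ht)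
      obtain ⟨n, hn⟩ := exists_nat_one_div_lt hε
      refine ⟨n, Or.inr fun s hs _ _ => h4 ?_⟩
      rw [Real.dist_eq, sub_zero]
      exact lt_of_le_of_lt hs hn
    · exact ⟨0, Or.inl ht⟩
  have hD := dense_iUnion_interior_of_closed hC hU
  have hS : IsClosed {r : ℝ | a0' r - b1' r = -4 * b0 r ∧
      a1' r * b0 r + a1 r * b0' r = 2 * b0 r * (a0 r - b1 r)} := by
    refine IsClosed.inter ?_ ?_
    · exact isClosed_eq (c1.sub c4) (continuous_const.mul cb0)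
    · exact isClosed_eq ((c2.mul cb0).add (ca1.mul c3)) ((continuous_const.mul cb0).mul
        (ca0.sub cb1))
  intro t ht
  have hcl : t ∈ closure {r : ℝ | a0' r - b1' r = -4 * b0 r ∧
      a1' r * b0 r + a1 r * b0' r = 2 * b0 r * (a0 r - b1 r)} := by
    rw [mem_closure_iff]
    intro U hUo htU
    obtain ⟨r, ⟨hrU, hrJ⟩, hr⟩ := hD.inter_open_nonempty (U ∩ J) (hUo.inter hL.J_open) ⟨t, htU, ht⟩
    rw [mem_iUnion] at hr
    obtain ⟨n, hn⟩ := hr
    refine ⟨r, hrU, ?_⟩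
    -- find δ
    obtain ⟨δ₁, hδ₁, k1⟩ := Metric.isOpen_iff.mp (isOpen_interior (s := C n)) r hn
    obtain ⟨δ₂, hδ₂, k2⟩ := Metric.isOpen_iff.mp hL.J_open r hrJ
    have hcont : ContinuousAt (fun q : ℝ × ℝ => v0 q.1 + q.2 • v1 q.1) (r, 0) :=
      ((cv0.comp continuous_fst).add (continuous_snd.smul (cv1.comp continuous_fst))).continuousAt
    have hmem : Ω ∈ 𝓝 ((fun q : ℝ × ℝ => v0 q.1 + q.2 • v1 q.1) (r, 0)) := by
      apply hL.Ω_open.mem_nhds
      simpa using hL.maps r hrJ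
    obtain ⟨δ₃, hδ₃, k3⟩ := Metric.mem_nhds_iff.mp (hcont.preimage_mem_nhds hmem)
    set δ := min (min δ₁ δ₂) (min δ₃ (1 / ((n : ℝ) + 1))) with hδ
    have hδ0 : 0 < δ := lt_min (lt_min hδ₁ hδ₂) (lt_min hδ₃ (by positivity))
    have l1 : δ ≤ δ₁ := (min_le_left _ _).trans (min_le_left _ _)
    have l2 : δ ≤ δ₂ := (min_le_left _ _).trans (min_le_right _ _)
    have l3 : δ ≤ δ₃ := (min_le_right _ _).trans (min_le_left _ _)
    have l4 : δ ≤ 1 / ((n : ℝ) + 1) := (min_le_right _ _).trans (min_le_right _ _)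
    have k3' : ∀ t' s : ℝ, |t' - r| < δ → |s| < δ → v0 t' + s • v1 t' ∈ Ω := by
      intro t' s ht' hs
      have : (t', s) ∈ Metric.ball ((r, 0) : ℝ × ℝ) δ₃ := by
        rw [Metric.mem_ball, Prod.dist_eq, max_lt_iff, Real.dist_eq, Real.dist_eq, sub_zero]
        exact ⟨ht'.trans_le l3, hs.trans_le l3⟩
      exact k3 this
    refine hL.eqs H h0 h1 hb0 hb1 h2 h3 hδ0 fun t' s ht' hs => ⟨k3' t' s ht' hs, ?_⟩
    have ht1 : t' ∈ C n := interior_subset (k1 (by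
      rw [Metric.mem_ball, Real.dist_eq]; exact ht'.trans_le l1))
    have ht2 : t' ∈ J := k2 (by rw [Metric.mem_ball, Real.dist_eq]; exact ht'.trans_le l2)
    rcases ht1 with h5 | h5
    · exact absurd ht2 h5
    · exact h5 s (hs.le.trans l4) (k3' t' s ht' hs) (k3' t' (-s) ht' (by rwa [abs_neg]))
  rw [hS.closure_eq] at hcl
  exact hcl

end Loc

end Pool.Agent.W5h70.PG
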