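import Pool.Agent.W5h70.PG.Rigid

set_option autoImplicit false

open Filter Topology Set NormedSpace

namespace Pool.Agent.W5h70.PG

theorem ode_exp {f : ℝ → ℝ} {c : ℝ} (h : ∀ τ, HasDerivAt f (c * f τ) τ) (τ : ℝ) :
    f τ = Real.exp (c * τ) * f 0 := by
  have h1 : ∀ τ, HasDerivAt (fun τ => Real.exp (-(c * τ)) * f τ) 0 τ := fun τ => by
    have h2 : HasDerivAt (fun τ : ℝ => Real.exp (-(c * τ))) (Real.exp (-(c * τ)) * (-c)) τ := by
      have h3 : HasDerivAt (fun τ : ℝ => -(c * τ)) (-c) τ := by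
        have h5 := ((hasDerivAt_id' τ).const_mul c).fun_neg
        rwa [mul_one] at h5
      exact h3.exp
    refine (h2.mul (h τ)).congr_deriv ?_
    ring
  have h4 := is_const_of_deriv_eq_zero (fun t => (h1 t).differentiableAt)
    (fun t => (h1 t).deriv) τ 0
  simp only [mul_zero, neg_zero, Real.exp_zero, one_mul] at h4
  rw [← h4, ← mul_assoc, ← Real.exp_add]
  simp

/-- `det3` as a linear form in one of the arguments -/
def f0 (v1 v2 : Fin 3 → ℝ) : (Fin 3 → ℝ) →ₗ[ℝ] ℝ where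
  toFun X := det3 X v1 v2
  map_add' X Y := by simp only [det3, Pi.add_apply]; ring
  map_smul' c X := by simp only [det3, Pi.smul_apply, smul_eq_mul, RingHom.id_apply]; ring

def f1 (v0 v2 : Fin 3 → ℝ) : (Fin 3 → ℝ) →ₗ[ℝ] ℝ where
  toFun X := det3 v0 X v2
  map_add' X Y := by simp only [det3, Pi.add_apply]; ring
  map_smul' c X := by simp only [det3, Pi.smul_apply, smul_eq_mul, RingHom.id_apply]; ring

def f2 (v0 v1 : Fin 3 → ℝ) : (Fin 3 → ℝ) →ₗ[ℝ] ℝ where
  toFun X := det3 v0 v1 X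
  map_add' X Y := by simp only [det3, Pi.add_apply]; ring
  map_smul' c X := by simp only [det3, Pi.smul_apply, smul_eq_mul, RingHom.id_apply]; ring

theorem HD.det {ν : ℝ → ℝ} {u v w u' v' w' : ℝ → Fin 3 → ℝ} (hu : HD ν u u') (hv : HD ν v v')
    (hw : HD ν w w') : HD ν (fun t => det3 (u t) (v t) (w t))
      (fun t => det3 (u' t) (v t) (w t) + det3 (u t) (v' t) (w t) + det3 (u t) (v t) (w' t)) := by
  intro t
  have a := fun i => (hasDerivAt_pi.1 (hu t) i)
  have b := fun i => (hasDerivAt_pi.1 (hv t) i)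
  have c := fun i => (hasDerivAt_pi.1 (hw t) i)
  simp only [Pi.smul_apply, smul_eq_mul] at a b c
  unfold det3
  refine (((a 0).fun_mul (((b 1).fun_mul (c 2)).fun_sub ((b 2).fun_mul (c 1)))).fun_sub
    ((a 1).fun_mul (((b 0).fun_mul (c 2)).fun_sub ((b 2).fun_mul (c 0)))) |>.fun_add
    ((a 2).fun_mul (((b 0).fun_mul (c 1)).fun_sub ((b 1).fun_mul (c 0))))).congr_deriv ?_
  simp only [smul_eq_mul]
  ring

namespace Fr

variable {A : (Fin 3 → ℝ) →L[ℝ] (Fin 3 → ℝ)} {ν : ℝ → ℝ} {v0 v1 v2 : ℝ → Fin 3 → ℝ}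
  {k0 k1 a0 a1 : ℝ → ℝ}

theorem e_pos (H : Fr A ν v0 v1 v2 k0 k1 a0 a1) {e : ℝ} (hk0 : ∀ t, k0 t = 0)
    (hk1 : ∀ t, k1 t = -e) {L : ℝ} (hL : 0 < L) (p1 : ∀ t, v1 (t + L) = v1 t)
    (p2 : ∀ t, v2 (t + L) = v2 t) : 0 < e := by
  by_contra hcon
  push Not at hcon
  have hz : ∀ i t, v2 t i = 0 := by
    intro i
    have hg : HD ν (fun t => v1 t i) (fun t => v2 t i) := fun t => by
      have := hasDerivAt_pi.1 (H.d1 t) i
      exact this
    have hg' : HD ν (fun t => v2 t i) (fun t => -e * v1 t i) := fun t => by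
      have := hasDerivAt_pi.1 (H.d2 t) i
      refine this.congr_deriv ?_
      simp [hk0, hk1]
    have hW := hg.mul hg'
    have hnn : ∀ t, 0 ≤ v2 t i * v2 t i + v1 t i * (-e * v1 t i) := fun t => by
      have h1 : 0 ≤ v2 t i * v2 t i := mul_self_nonneg _
      have h2 : 0 ≤ v1 t i * v1 t i := mul_self_nonneg _
      nlinarith
    have h3 := zero_of_periodic H.ν_pos hW hnn hL (fun t => by rw [p1, p2])
    intro t
    have h4 := h3 t
    have h1 : 0 ≤ v2 t i * v2 t i := mul_self_nonneg _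
    have h2 : 0 ≤ v1 t i * v1 t i := mul_self_nonneg _
    have h5 : v2 t i * v2 t i = 0 := by nlinarith
    exact mul_self_eq_zero.mp h5
  have h6 := H.det 0
  unfold det3 at h6
  rw [hz 0, hz 1, hz 2] at h6
  norm_num at h6

theorem concl (H : Fr A ν v0 v1 v2 k0 k1 a0 a1) {e α₀ α₁ β₁ : ℝ} (he : 0 < e)
    (heq : e = α₀ - β₁) (ha0 : ∀ t, a0 t = α₀) (ha1 : ∀ t, a1 t = α₁)
    (hk0 : ∀ t, k0 t = 0) (hk1 : ∀ t, k1 t = -e) :
    ∃ x y l : (Fin 3 → ℝ) →ₗ[ℝ] ℝ, LinearIndependent ℝ ![x, y, l] ∧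
      ∀ t τ : ℝ, l (exp (τ • A) (v0 t)) ≠ 0 ∧
        x (exp (τ • A) (v0 t)) ^ 2 + y (exp (τ • A) (v0 t)) ^ 2 =
          Real.exp (-2 * e * τ) * l (exp (τ • A) (v0 t)) ^ 2 := by
  have hν : ∀ t, ν t ≠ 0 := fun t => (H.ν_pos t).ne'
  have hse : 0 < √e := Real.sqrt_pos.mpr he
  have hsq : √e * √e = e := Real.mul_self_sqrt he.le
  set a := f0 (v1 0) (v2 0) with ha
  set b := f1 (v0 0) (v2 0) with hb
  set c := f2 (v0 0) (v1 0) with hc
  have av : ∀ X, a X = det3 X (v1 0) (v2 0) := fun _ => rfl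
  have bv : ∀ X, b X = det3 (v0 0) X (v2 0) := fun _ => rfl
  have cv : ∀ X, c X = det3 (v0 0) (v1 0) X := fun _ => rfl
  -- the matrix of A
  have z0 : HD ν a0 (fun _ => 0) := fun s => by
    have h26 : a0 = fun _ => α₀ := funext ha0
    rw [h26, smul_zero]
    exact hasDerivAt_const s _
  have z1 : HD ν a1 (fun _ => 0) := fun s => by
    have h26 : a1 = fun _ => α₁ := funext ha1
    rw [h26, smul_zero]
    exact hasDerivAt_const s _
  have zz : ∀ r : ℝ, HD ν (fun _ => r) (fun _ => (0 : ℝ)) := fun r s => by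
    rw [smul_zero]
    exact hasDerivAt_const s _
  have A0 : A (v0 0) = α₀ • v0 0 + α₁ • v1 0 + v2 0 := by rw [H.hA, ha0, ha1]
  have A1 : A (v1 0) = β₁ • v1 0 + α₁ • v2 0 := by
    rw [H.Av1 z0 z1 0, hk0, ha0, hk1, ha1]
    have : α₀ + 0 + -e = β₁ := by rw [heq]; ring
    rw [this]
    simp
  have A2 : A (v2 0) = (-(α₁ * e)) • v1 0 + β₁ • v2 0 := by
    rw [H.Av2 z0 z1 (b0 := fun _ => 0) (b1 := fun _ => β₁) (fun t => by simp [hk0])
      (fun t => by rw [ha0, hk1, heq]; ring) (zz 0) (zz β₁) 0, hk0, hk1, ha1]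
    simp
  have hcr : ∀ X, X = a X • v0 0 + b X • v1 0 + c X • v2 0 := fun X => by
    have := cramer (v0 := v0 0) (v1 := v1 0) (v2 := v2 0) X
    rw [H.det 0, one_smul] at this
    exact this
  have d00 : a (v0 0) = 1 := H.det 0
  have d01 : a (v1 0) = 0 := by rw [av]; unfold det3; ring
  have d02 : a (v2 0) = 0 := by rw [av]; unfold det3; ring
  have d10 : b (v0 0) = 0 := by rw [bv]; unfold det3; ring
  have d11 : b (v1 0) = 1 := H.det 0
  have d12 : b (v2 0) = 0 := by rw [bv]; unfold det3; ring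
  have d20 : c (v0 0) = 0 := by rw [cv]; unfold det3; ring
  have d21 : c (v1 0) = 0 := by rw [cv]; unfold det3; ring
  have d22 : c (v2 0) = 1 := H.det 0
  have aA : ∀ X, a (A X) = α₀ * a X := fun X => by
    conv_lhs => rw [hcr X]
    simp only [map_add, map_smul, A0, A1, A2, d00, d01, d02, smul_eq_mul]
    ring
  have bA : ∀ X, b (A X) = α₁ * a X + β₁ * b X - α₁ * e * c X := fun X => by
    conv_lhs => rw [hcr X]
    simp only [map_add, map_smul, A0, A1, A2, d10, d11, d12, smul_eq_mul]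
    ring
  have cA : ∀ X, c (A X) = a X + α₁ * b X + β₁ * c X := fun X => by
    conv_lhs => rw [hcr X]
    simp only [map_add, map_smul, A0, A1, A2, d20, d21, d22, smul_eq_mul]
    ring
  -- values on the curve
  have curve : ∀ t, a (v0 t) = 1 ∧ e * b (v0 t) ^ 2 + (e * c (v0 t) - a (v0 t)) ^ 2 = 1 := by
    intro t
    obtain ⟨X, hX⟩ : ∃ X, X = v0 t := ⟨_, rfl⟩
    have dX : HD ν (fun _ => X) (fun _ => 0) := fun s => by
      rw [smul_zero]; exact hasDerivAt_const s _
    have e0 : HD ν (fun s => det3 X (v1 s) (v2 s)) (fun _ => 0) :=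
      (dX.det H.d1 H.d2).congr (fun _ => rfl) (fun s => by
        simp only [det3, Pi.zero_apply, Pi.add_apply, Pi.smul_apply, smul_eq_mul, hk0, hk1]
        ring)
    have e1 : HD ν (fun s => det3 (v0 s) X (v2 s))
        (fun s => -det3 X (v1 s) (v2 s) + e * det3 (v0 s) (v1 s) X) :=
      (H.d0.det dX H.d2).congr (fun _ => rfl) (fun s => by
        simp only [det3, Pi.zero_apply, Pi.add_apply, Pi.smul_apply, smul_eq_mul, hk0, hk1]
        ring)
    have e2 : HD ν (fun s => det3 (v0 s) (v1 s) X) (fun s => -det3 (v0 s) X (v2 s)) :=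
      (H.d0.det H.d1 dX).congr (fun _ => rfl) (fun s => by
        simp only [det3, Pi.zero_apply]
        ring)
    have g0 := e0.const_of_zero (fun _ => rfl) t 0
    have e3 := ((e2.const_smul e).sub e0)
    have e4 := ((e1.mul e1).const_smul e).add (e3.mul e3)
    have g1 := e4.const_of_zero (fun s => by
      simp only [smul_eq_mul]
      ring) t 0
    simp only [smul_eq_mul] at g0 g1
    have w0 : det3 X (v1 t) (v2 t) = 1 := by rw [hX]; exact H.det t
    have w1 : det3 (v0 t) X (v2 t) = 0 := by rw [hX]; unfold det3; ring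
    have w2 : det3 (v0 t) (v1 t) X = 0 := by rw [hX]; unfold det3; ring
    rw [w0] at g0 g1
    rw [w1, w2] at g1
    rw [← hX, av, bv, cv]
    refine ⟨g0.symm, ?_⟩
    linear_combination -g1
  -- the flow
  have flow : ∀ (X : Fin 3 → ℝ) (τ : ℝ), a (exp (τ • A) X) = Real.exp (α₀ * τ) * a X ∧
      e * b (exp (τ • A) X) ^ 2 + (e * c (exp (τ • A) X) - a (exp (τ • A) X)) ^ 2 =
        Real.exp (2 * β₁ * τ) * (e * b X ^ 2 + (e * c X - a X) ^ 2) := by
    intro X τ
    have hX : ∀ τ, HasDerivAt (fun τ : ℝ => exp (τ • A) X) (A (exp (τ • A) X)) τ := fun τ => by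
      have h1 := hasDerivAt_exp_smul_const' (𝕂 := ℝ) A τ
      have h2 := h1.clm_apply (hasDerivAt_const τ X)
      simpa using h2
    have lin : ∀ (q : (Fin 3 → ℝ) →ₗ[ℝ] ℝ) (τ : ℝ),
        HasDerivAt (fun τ : ℝ => q (exp (τ • A) X)) (q (A (exp (τ • A) X))) τ := fun q τ => by
      have h1 := (LinearMap.toContinuousLinearMap q).hasFDerivAt.comp_hasDerivAt τ (hX τ)
      exact h1
    have ha' := fun τ => (lin a τ).congr_deriv (aA _)
    have hb' := fun τ => (lin b τ).congr_deriv (bA _)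
    have hc' := fun τ => (lin c τ).congr_deriv (cA _)
    have i0 : exp ((0 : ℝ) • A) X = X := by rw [zero_smul, NormedSpace.exp_zero]; rfl
    constructor
    · have := ode_exp ha' τ
      rwa [i0] at this
    · have hR : ∀ τ, HasDerivAt (fun τ => e * b (exp (τ • A) X) ^ 2 +
          (e * c (exp (τ • A) X) - a (exp (τ • A) X)) ^ 2)
          (2 * β₁ * (e * b (exp (τ • A) X) ^ 2 +
          (e * c (exp (τ • A) X) - a (exp (τ • A) X)) ^ 2)) τ := fun τ => by
        refine ((((hb' τ).fun_pow 2).const_mul e).fun_add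
          ((((hc' τ).const_mul e).fun_sub (ha' τ)).fun_pow 2)).congr_deriv ?_
        rw [show α₀ = e + β₁ by rw [heq]; ring]
        push_cast
        ring
      have := ode_exp hR τ
      rwa [i0] at this
  refine ⟨b, (√e)⁻¹ • (e • c - a), (√e)⁻¹ • a, ?_, fun t τ => ?_⟩
  · rw [Fintype.linearIndependent_iff]
    intro g hg
    rw [Fin.sum_univ_three] at hg
    simp only [Matrix.cons_val_zero, Matrix.cons_val_one, Matrix.cons_val] at hg
    have q0 := LinearMap.congr_fun hg (v0 0)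
    have q1 := LinearMap.congr_fun hg (v1 0)
    have q2 := LinearMap.congr_fun hg (v2 0)
    simp only [LinearMap.add_apply, LinearMap.smul_apply, LinearMap.sub_apply, smul_eq_mul,
      LinearMap.zero_apply, d00, d01, d02, d10, d11, d12, d20, d21, d22, mul_zero, mul_one,
      sub_zero, zero_sub, add_zero, zero_add] at q0 q1 q2
    have r1 : g 1 = 0 := by
      have : (√e)⁻¹ * e ≠ 0 := mul_ne_zero (inv_ne_zero hse.ne') he.ne'
      exact (mul_eq_zero.mp q2).resolve_right this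
    rw [r1, zero_mul, zero_add] at q0
    have r2 : g 2 = 0 := (mul_eq_zero.mp q0).resolve_right (inv_ne_zero hse.ne')
    intro i
    fin_cases i
    · exact q1
    · exact r1
    · exact r2
  · obtain ⟨c1, c2⟩ := curve t
    obtain ⟨g1, g2⟩ := flow (v0 t) τ
    rw [c1, mul_one] at g1
    rw [c2, mul_one] at g2
    simp only [LinearMap.smul_apply, LinearMap.sub_apply, smul_eq_mul]
    refine ⟨?_, ?_⟩
    · rw [g1]
      exact mul_ne_zero (inv_ne_zero hse.ne') (Real.exp_pos _).ne'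
    · have h1 : ((√e)⁻¹) ^ 2 = e⁻¹ := by
        rw [inv_pow, Real.sq_sqrt he.le]
      rw [mul_pow, mul_pow, h1]
      have h2 : b (exp (τ • A) (v0 t)) ^ 2 = e⁻¹ * (e * b (exp (τ • A) (v0 t)) ^ 2) := by
        field_simp
      rw [h2, ← mul_add, g2, g1, ← Real.exp_nat_mul]
      rw [show Real.exp (-2 * e * τ) * (e⁻¹ * Real.exp (((2 : ℕ) : ℝ) * (α₀ * τ))) =
        e⁻¹ * (Real.exp (-2 * e * τ) * Real.exp (((2 : ℕ) : ℝ) * (α₀ * τ))) by ring,
        ← Real.exp_add]
      congr 2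
      rw [heq]
      push_cast
      ring

end Fr

end Pool.Agent.W5h70.PG
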