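import Pool.Agent.W5h70.PG.Pde

set_option autoImplicit false

open Filter Topology Set Asymptotics

namespace Pool.Agent.W5h70.PG

theorem c_zero {h : ℝ → ℝ} (hh : (fun s => h s + s ^ 2 / 2) =o[𝓝 0] fun s => s ^ 3) {c : ℝ}
    (hinv : ∀ᶠ s in 𝓝 (0 : ℝ), h s = h (-(s / (1 + c * s)))) : c = 0 := by
  have hden : Tendsto (fun s : ℝ => 1 + c * s) (𝓝 0) (𝓝 1) := by
    have : Tendsto (fun s : ℝ => 1 + c * s) (𝓝 0) (𝓝 (1 + c * 0)) :=
      Continuous.tendsto (by fun_prop) 0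
    simpa using this
  have hφ : Tendsto (fun s : ℝ => -(s / (1 + c * s))) (𝓝 0) (𝓝 0) := by
    have h1 : Tendsto (fun s : ℝ => -(s / (1 + c * s))) (𝓝 0) (𝓝 (-(0 / 1))) :=
      (tendsto_id.div hden one_ne_zero).neg
    simpa using h1
  have hO : (fun s : ℝ => (-(s / (1 + c * s))) ^ 3) =O[𝓝 0] fun s => s ^ 3 := by
    refine IsBigO.pow ?_ 3
    refine IsBigO.of_bound 2 ?_
    have h2 := hden.eventually (lt_mem_nhds (show (1 / 2 : ℝ) < 1 by norm_num))
    filter_upwards [h2] with s hs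
    rw [norm_neg, norm_div, div_le_iff₀ (norm_pos_iff.mpr (by linarith))]
    have h3 : 1 / 2 ≤ ‖1 + c * s‖ := by
      rw [Real.norm_eq_abs, abs_of_pos (by linarith)]
      exact hs.le
    nlinarith [norm_nonneg s]
  have h4 : (fun s : ℝ => h (-(s / (1 + c * s))) + (-(s / (1 + c * s))) ^ 2 / 2) =o[𝓝 0]
      fun s => s ^ 3 := (hh.comp_tendsto hφ).trans_isBigO hO
  have h5 : (fun s : ℝ => (s ^ 2 - (-(s / (1 + c * s))) ^ 2) / 2) =o[𝓝 0] fun s => s ^ 3 := by
    refine (hh.sub h4).congr' ?_ EventuallyEq.rfl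
    filter_upwards [hinv] with s hs
    rw [hs]
    ring
  have h6 := (h5.mono (nhdsWithin_le_nhds (s := {0}ᶜ))).tendsto_div_nhds_zero
  have h7 : Tendsto (fun s : ℝ => c * (2 + c * s) / (1 + c * s) ^ 2 / 2) (𝓝[≠] 0) (𝓝 c) := by
    have h8 : Tendsto (fun s : ℝ => c * (2 + c * s) / (1 + c * s) ^ 2 / 2) (𝓝 0)
        (𝓝 (c * (2 + c * 0) / 1 ^ 2 / 2)) := by
      refine Tendsto.div_const (Tendsto.div ?_ (hden.pow 2) (by norm_num)) 2
      exact Continuous.tendsto (by fun_prop) 0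
    have h9 : c * (2 + c * 0) / 1 ^ 2 / 2 = c := by ring
    rw [h9] at h8
    exact h8.mono_left nhdsWithin_le_nhds
  have h10 : Tendsto (fun s : ℝ => c * (2 + c * s) / (1 + c * s) ^ 2 / 2) (𝓝[≠] 0) (𝓝 0) := by
    refine h6.congr' ?_
    have h11 := (hden.eventually (lt_mem_nhds (show (1 / 2 : ℝ) < 1 by norm_num))).filter_mono
      (nhdsWithin_le_nhds (s := {(0 : ℝ)}ᶜ))
    filter_upwards [h11, self_mem_nhdsWithin] with s hs hs0
    have hs1 : 1 + c * s ≠ 0 := by linarith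
    have hs2 : s ≠ 0 := hs0
    obtain ⟨d, hd⟩ : ∃ d, d = 1 + c * s := ⟨_, rfl⟩
    rw [← hd] at hs1 ⊢
    have h12 : c * (2 + c * s) * s = d ^ 2 - 1 := by rw [hd]; ring
    rw [neg_sq, div_pow]
    field_simp
    linear_combination -h12
  exact tendsto_nhds_unique h7 h10

namespace Loc

variable {A : (Fin 3 → ℝ) →L[ℝ] (Fin 3 → ℝ)} {ν : ℝ → ℝ} {v0 v1 v2 : ℝ → Fin 3 → ℝ}
  {k0 k1 a0 a1 : ℝ → ℝ} {F : (Fin 3 → ℝ) → ℝ} {Ω : Set (Fin 3 → ℝ)} {J : Set ℝ}

theorem taylor3 (hL : Loc A v0 F Ω J) (H : Fr A ν v0 v1 v2 k0 k1 a0 a1) {a0' a1' b0 b1 : ℝ → ℝ}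
    (h0 : HD ν a0 a0') (h1 : HD ν a1 a1') (hb0 : ∀ t, b0 t = a0' t + k0 t)
    (hb1 : ∀ t, b1 t = a0 t + a1' t + k1 t) {t : ℝ} (ht : t ∈ J) :
    (fun s => F (v0 t + s • v1 t) + s ^ 2 / 2) =o[𝓝 0] fun s => s ^ 3 := by
  have hΩ := hL.maps t ht
  have hw : ∀ s : ℝ, HasDerivAt (fun s : ℝ => v1 t + s • v2 t) (v2 t) s := fun s =>
    line (v0 := v1) (v1 := v2) t s
  have z0 : v0 t + (0 : ℝ) • v1 t = v0 t := by simp
  have z1 : v1 t + (0 : ℝ) • v2 t = v1 t := by simp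
  have hΩ0 : v0 t + (0 : ℝ) • v1 t ∈ Ω := by rw [z0]; exact hΩ
  -- step A
  have hgd : ∀ᶠ s in 𝓝 (0 : ℝ), HasDerivAt (fun s => fderiv ℝ F (v0 t + s • v1 t) (v1 t + s • v2 t))
      (fderiv ℝ (fderiv ℝ F) (v0 t + s • v1 t) (v1 t) (v1 t + s • v2 t) +
        fderiv ℝ F (v0 t + s • v1 t) (v2 t)) s := by
    filter_upwards [hL.ev_mem ht] with s hs
    exact hL.dcurve (X := fun s => v0 t + s • v1 t) hs (line t s) (hw s)
  have hS : HasDerivAt (fun s : ℝ => fderiv ℝ (fderiv ℝ F) (v0 t + s • v1 t))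
      (fderiv ℝ (fderiv ℝ (fderiv ℝ F)) (v0 t + (0 : ℝ) • v1 t) (v1 t)) (0 : ℝ) :=
    HasFDerivAt.comp_hasDerivAt (l := fderiv ℝ (fderiv ℝ F)) (0 : ℝ)
      (f := fun s : ℝ => v0 t + s • v1 t) (hL.c3 hΩ0) (line t 0)
  have hS1 := (hS.clm_apply (hasDerivAt_const (0 : ℝ) (v1 t))).clm_apply (hw 0)
  have hS2 := hL.dcurve (X := fun s => v0 t + s • v1 t) (w := fun _ => v2 t) hΩ0 (line t 0)
    (hasDerivAt_const (0 : ℝ) (v2 t))
  have hg2 := hS1.add hS2
  simp only [map_zero, add_zero, z0, z1] at hg2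
  have hval : fderiv ℝ (fderiv ℝ (fderiv ℝ F)) (v0 t) (v1 t) (v1 t) (v1 t) +
      fderiv ℝ (fderiv ℝ F) (v0 t) (v1 t) (v2 t) +
      fderiv ℝ (fderiv ℝ F) (v0 t) (v1 t) (v2 t) = 0 := by
    have := hL.e4 H ht
    linarith
  rw [hval] at hg2
  have hgo : (fun s => fderiv ℝ (fderiv ℝ F) (v0 t + s • v1 t) (v1 t) (v1 t + s • v2 t) +
        fderiv ℝ F (v0 t + s • v1 t) (v2 t)) =o[𝓝 0] fun s : ℝ => s ^ 1 := by
    have h3 := hasDerivAt_iff_isLittleO.mp hg2
    refine h3.congr (fun s => ?_) (fun s => by simp)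
    simp only [Pi.add_apply, z0, z1, smul_zero, sub_zero]
    rw [hL.e3 H ht, hL.e2 H ht]
    ring
  have hg := littleO_int 1 hgd hgo (by simp only [z0, z1]; exact hL.e1 H ht)
  -- step C
  have hPd : HasDerivAt (fun s : ℝ => fderiv ℝ F (v0 t + s • v1 t) (v1 t)) _ (0 : ℝ) :=
    hL.dcurve (X := fun s => v0 t + s • v1 t) (w := fun _ => v1 t) hΩ0 (line t 0)
    (hasDerivAt_const (0 : ℝ) (v1 t))
  have hP0 : Tendsto (fun s : ℝ => fderiv ℝ F (v0 t + s • v1 t) (v1 t)) (𝓝 0) (𝓝 0) := by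
    have := hPd.continuousAt.tendsto
    simpa only [z0, hL.e1 H ht] using this
  have hPo : (fun s : ℝ => fderiv ℝ F (v0 t + s • v1 t) (v1 t) + s) =o[𝓝 0] fun s => s ^ 2 := by
    have o1 : (fun s : ℝ => (1 + a1 t * s) *
        fderiv ℝ F (v0 t + s • v1 t) (v1 t + s • v2 t)) =o[𝓝 0] fun s => s ^ 2 := by
      have b1 : (fun s : ℝ => 1 + a1 t * s) =O[𝓝 0] fun _ => (1 : ℝ) :=
        (Continuous.tendsto (by fun_prop) 0 : Tendsto (fun s : ℝ => 1 + a1 t * s) (𝓝 0)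
          (𝓝 (1 + a1 t * 0))).isBigO_one ℝ
      have := b1.mul_isLittleO hg
      simpa using this
    have o2 : (fun s : ℝ => ((a0 t - b1 t) + b0 t * s) * s ^ 2 *
        fderiv ℝ F (v0 t + s • v1 t) (v1 t)) =o[𝓝 0] fun s => s ^ 2 := by
      have b1 : (fun s : ℝ => ((a0 t - b1 t) + b0 t * s) * s ^ 2) =O[𝓝 0] fun s => s ^ 2 := by
        have b2 : (fun s : ℝ => (a0 t - b1 t) + b0 t * s) =O[𝓝 0] fun _ => (1 : ℝ) :=
          (Continuous.tendsto (by fun_prop) 0 : Tendsto (fun s : ℝ => (a0 t - b1 t) + b0 t * s)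
            (𝓝 0) (𝓝 ((a0 t - b1 t) + b0 t * 0))).isBigO_one ℝ
        have := b2.mul (isBigO_refl (fun s : ℝ => s ^ 2) (𝓝 0))
        simpa using this
      have b3 : (fun s : ℝ => fderiv ℝ F (v0 t + s • v1 t) (v1 t)) =o[𝓝 0] fun _ => (1 : ℝ) :=
        (isLittleO_one_iff ℝ).mpr hP0
      have := b1.mul_isLittleO b3
      simpa using this
    refine (o1.sub o2).congr' ?_ EventuallyEq.rfl
    filter_upwards [hL.ev_mem ht] with s hs
    have := hL.pde H h0 h1 hb0 hb1 hs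
    linear_combination this
  have hfin := littleO_int (g := fun s => F (v0 t + s • v1 t) + s ^ 2 / 2)
    (g' := fun s => fderiv ℝ F (v0 t + s • v1 t) (v1 t) + s) 2 (by
      filter_upwards [hL.ev_mem ht] with s hs
      have h5 := (hL.c1 hs).comp_hasDerivAt s (line (v0 := v0) (v1 := v1) t s)
      have h6 : HasDerivAt (fun s : ℝ => s ^ 2 / 2) s s := by
        refine ((hasDerivAt_pow 2 s).div_const 2).congr_deriv ?_
        norm_num
      exact h5.add h6) hPo (by simp [hL.zero t ht])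
  exact hfin

/-- In the normalised frame a projective involution is `s ↦ -s`. -/
theorem even_of_proj (hL : Loc A v0 F Ω J) (H : Fr A ν v0 v1 v2 k0 k1 a0 a1)
    {a0' a1' b0 b1 : ℝ → ℝ}
    (h0 : HD ν a0 a0') (h1 : HD ν a1 a1') (hb0 : ∀ t, b0 t = a0' t + k0 t)
    (hb1 : ∀ t, b1 t = a0 t + a1' t + k1 t) {t : ℝ} (ht : t ∈ J)
    (hp : ∃ c : ℝ, ∀ᶠ s in 𝓝 (0 : ℝ), F (v0 t + s • v1 t) = F (v0 t + (-(s / (1 + c * s))) • v1 t)) :
    ∀ᶠ s in 𝓝 (0 : ℝ), F (v0 t + s • v1 t) = F (v0 t + (-s) • v1 t) := by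
  obtain ⟨c, hc⟩ := hp
  have h2 := c_zero (h := fun s => F (v0 t + s • v1 t)) (hL.taylor3 H h0 h1 hb0 hb1 ht) hc
  subst h2
  simpa using hc

/-- the equations at a point with uniform evenness -/
theorem eqs (hL : Loc A v0 F Ω J) (H : Fr A ν v0 v1 v2 k0 k1 a0 a1)
    {a0' a1' b0 b1 b0' b1' : ℝ → ℝ}
    (h0 : HD ν a0 a0') (h1 : HD ν a1 a1') (hb0 : ∀ t, b0 t = a0' t + k0 t)
    (hb1 : ∀ t, b1 t = a0 t + a1' t + k1 t) (h2 : HD ν b0 b0') (h3 : HD ν b1 b1') {t δ : ℝ}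
    (hδ : 0 < δ)
    (hev : ∀ t' s : ℝ, |t' - t| < δ → |s| < δ → v0 t' + s • v1 t' ∈ Ω ∧
      F (v0 t' + s • v1 t') = F (v0 t' + (-s) • v1 t')) :
    a0' t - b1' t = -4 * b0 t ∧
      a1' t * b0 t + a1 t * b0' t = 2 * b0 t * (a0 t - b1 t) := by
  -- closed forms
  have key : ∀ t' s : ℝ, |t' - t| < δ → |s| < δ →
      fderiv ℝ F (v0 t' + s • v1 t') (v1 t' + s • v2 t') =
        b0 t' * s ^ 3 * fderiv ℝ F (v0 t' + s • v1 t') (v1 t') ∧
      (1 + (a0 t' - b1 t') * s ^ 2 - a1 t' * b0 t' * s ^ 4) *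
        fderiv ℝ F (v0 t' + s • v1 t') (v1 t') = -s := by
    intro t' s ht' hs
    have hs' : |-s| < δ := by rwa [abs_neg]
    obtain ⟨m1, -⟩ := hev t' s ht' hs
    obtain ⟨m2, -⟩ := hev t' (-s) ht' hs'
    -- oddness of P
    have P1 : fderiv ℝ F (v0 t' + s • v1 t') (v1 t') =
        -fderiv ℝ F (v0 t' + (-s) • v1 t') (v1 t') := by
      have d1 : HasDerivAt (fun s => F (v0 t' + s • v1 t')) _ s :=
        (hL.c1 m1).comp_hasDerivAt s (line (v0 := v0) (v1 := v1) t' s)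
      have d2 : HasDerivAt (fun s => F (v0 t' + (-s) • v1 t'))
          (fderiv ℝ F (v0 t' + (-s) • v1 t') (-v1 t')) s := by
        have h5 : HasDerivAt (fun s : ℝ => v0 t' + (-s) • v1 t') (-v1 t') s := by
          have := ((hasDerivAt_id' s).fun_neg.smul_const (v1 t')).const_add (v0 t')
          rwa [neg_smul, one_smul] at this
        exact (hL.c1 m2).comp_hasDerivAt s h5
      have d3 : HasDerivAt (fun s => F (v0 t' + s • v1 t'))
          (fderiv ℝ F (v0 t' + (-s) • v1 t') (-v1 t')) s := by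
        refine d2.congr_of_eventuallyEq ?_
        have h6 : ∀ᶠ s' in 𝓝 s, |s'| < δ :=
          (continuous_abs.continuousAt).eventually_lt continuousAt_const hs
        filter_upwards [h6] with s' hs'
        exact (hev t' s' ht' hs').2
      have h7 := d1.unique d3
      rw [map_neg] at h7
      exact h7
    -- evenness of Q
    have Q1 : fderiv ℝ F (v0 t' + s • v1 t') (v1 t' + s • v2 t') =
        fderiv ℝ F (v0 t' + (-s) • v1 t') (v1 t' + (-s) • v2 t') := by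
      have hc : ∀ s : ℝ, HasDerivAt (fun r => v0 r + s • v1 r)
          (ν t' • (v1 t' + s • v2 t')) t' := fun s => by
        refine ((H.d0 t').add ((H.d1 t').const_smul s)).congr_deriv ?_
        rw [smul_add, smul_comm s]
      have d1 : HasDerivAt (fun r => F (v0 r + s • v1 r)) _ t' :=
        HasFDerivAt.comp_hasDerivAt (f := fun r => v0 r + s • v1 r) t' (hL.c1 m1) (hc s)
      have d2 : HasDerivAt (fun r => F (v0 r + (-s) • v1 r)) _ t' :=
        HasFDerivAt.comp_hasDerivAt (f := fun r => v0 r + (-s) • v1 r) t' (hL.c1 m2) (hc (-s))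
      have d3 : HasDerivAt (fun r => F (v0 r + s • v1 r))
          (fderiv ℝ F (v0 t' + (-s) • v1 t') (ν t' • (v1 t' + (-s) • v2 t'))) t' := by
        refine d2.congr_of_eventuallyEq ?_
        have h6 : ∀ᶠ r in 𝓝 t', |r - t| < δ :=
          ((continuous_abs.comp (continuous_id.sub continuous_const)).continuousAt).eventually_lt
            continuousAt_const ht'
        filter_upwards [h6] with r hr
        exact (hev r s hr hs).2
      have h7 := d1.unique d3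
      rw [map_smul, map_smul, smul_eq_mul, smul_eq_mul] at h7
      exact mul_left_cancel₀ (H.ν_pos t').ne' h7
    have p1 := hL.pde H h0 h1 hb0 hb1 m1
    have p2 := hL.pde H h0 h1 hb0 hb1 m2
    rw [← Q1] at p2
    have P2 : fderiv ℝ F (v0 t' + (-s) • v1 t') (v1 t') =
      -fderiv ℝ F (v0 t' + s • v1 t') (v1 t') := by rw [P1, neg_neg]
    rw [P2] at p2
    set Q := fderiv ℝ F (v0 t' + s • v1 t') (v1 t' + s • v2 t')
    set P := fderiv ℝ F (v0 t' + s • v1 t') (v1 t')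
    have r1 : Q = b0 t' * s ^ 3 * P := by linear_combination (p1 + p2) / 2
    refine ⟨r1, ?_⟩
    rw [r1] at p1
    linear_combination -p1
  -- the mixed derivative
  have main : ∀ s : ℝ, |s| < δ → s ^ 3 * ((a0' t - b1' t + 4 * b0 t) -
      (a1' t * b0 t + a1 t * b0' t - 2 * b0 t * (a0 t - b1 t)) * s ^ 2) = 0 := by
    intro s hs
    have ht0 : |t - t| < δ := by simpa using hδ
    obtain ⟨m1, -⟩ := hev t s ht0 hs
    have hc : HasDerivAt (fun r => v0 r + s • v1 r) (ν t • (v1 t + s • v2 t)) t := by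
      refine ((H.d0 t).add ((H.d1 t).const_smul s)).congr_deriv ?_
      rw [smul_add, smul_comm s]
    have hw : HasDerivAt (fun s : ℝ => v1 t + s • v2 t) (v2 t) s :=
      line (v0 := v1) (v1 := v2) t s
    -- t-derivative of P
    have dPt := hL.dcurve (X := fun r => v0 r + s • v1 r) (w := v1) m1 hc (H.d1 t)
    -- s-derivative of Q
    have dQs := hL.dcurve (X := fun s => v0 t + s • v1 t) (w := fun s => v1 t + s • v2 t) m1
      (line t s) hw
    -- s-derivative of P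
    have dPs := hL.dcurve (X := fun s => v0 t + s • v1 t) (w := fun _ => v1 t) m1
      (line t s) (hasDerivAt_const s (v1 t))
    obtain ⟨X, hX⟩ : ∃ X, X = v0 t + s • v1 t := ⟨_, rfl⟩
    obtain ⟨Mx, hMx⟩ : ∃ Mx, Mx = fderiv ℝ (fderiv ℝ F) X (v1 t) (v1 t + s • v2 t) +
      fderiv ℝ F X (v2 t) := ⟨_, rfl⟩
    obtain ⟨P, hP⟩ : ∃ P, P = fderiv ℝ F X (v1 t) := ⟨_, rfl⟩
    obtain ⟨Ps, hPs⟩ : ∃ Ps, Ps = fderiv ℝ (fderiv ℝ F) X (v1 t) (v1 t) := ⟨_, rfl⟩
    have hmem : X ∈ Ω := by rw [hX]; exact m1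
    simp only [← hX] at dPt dQs dPs
    rw [map_zero, add_zero, ← hPs] at dPs
    rw [← hMx] at dQs
    have dPt' : HasDerivAt (fun r => fderiv ℝ F (v0 r + s • v1 r) (v1 r)) (ν t * Mx) t := by
      refine dPt.congr_deriv ?_
      rw [map_smul, map_smul, smul_apply, hL.symm hmem, hMx, smul_eq_mul, smul_eq_mul]
      ring
    -- identities
    obtain ⟨-, E4⟩ := key t s ht0 hs
    rw [← hX, ← hP] at E4
    -- E1
    have dg : HasDerivAt (fun r => 1 + (a0 r - b1 r) * s ^ 2 - a1 r * b0 r * s ^ 4)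
        (ν t * ((a0' t - b1' t) * s ^ 2 - (a1' t * b0 t + a1 t * b0' t) * s ^ 4)) t := by
      have q1 := (((h0.sub h3) t).mul_const (s ^ 2)).const_add 1
      have q2 := ((h1.mul h2) t).mul_const (s ^ 4)
      refine (q1.sub q2).congr_deriv ?_
      simp only [smul_eq_mul]
      ring
    have E1 : ((a0' t - b1' t) * s ^ 2 - (a1' t * b0 t + a1 t * b0' t) * s ^ 4) * P +
        (1 + (a0 t - b1 t) * s ^ 2 - a1 t * b0 t * s ^ 4) * Mx = 0 := by
      have q3 := dg.mul dPt'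
      have q4 : HasDerivAt (fun r => (1 + (a0 r - b1 r) * s ^ 2 - a1 r * b0 r * s ^ 4) *
          fderiv ℝ F (v0 r + s • v1 r) (v1 r)) 0 t := by
        refine (hasDerivAt_const t (-s)).congr_of_eventuallyEq ?_
        have h6 : ∀ᶠ r in 𝓝 t, |r - t| < δ :=
          ((continuous_abs.comp (continuous_id.sub continuous_const)).continuousAt).eventually_lt
            continuousAt_const ht0
        filter_upwards [h6] with r hr
        exact (key r s hr hs).2
      have q5 := q3.unique q4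
      rw [← hX, ← hP] at q5
      have q6 : ν t * (((a0' t - b1' t) * s ^ 2 - (a1' t * b0 t + a1 t * b0' t) * s ^ 4) * P +
        (1 + (a0 t - b1 t) * s ^ 2 - a1 t * b0 t * s ^ 4) * Mx) = 0 := by
        rw [← q5]; ring
      exact (mul_eq_zero.mp q6).resolve_left (H.ν_pos t).ne'
    have hsn : ∀ᶠ s' in 𝓝 s, |s'| < δ :=
      (continuous_abs.continuousAt).eventually_lt continuousAt_const hs
    -- E2
    have E2 : Mx = b0 t * (3 * s ^ 2) * P + b0 t * s ^ 3 * Ps := by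
      have q1 : HasDerivAt (fun s : ℝ => b0 t * s ^ 3) (b0 t * (3 * s ^ 2)) s := by
        refine ((hasDerivAt_pow 3 s).const_mul (b0 t)).congr_deriv ?_
        norm_num
      have q3 := q1.mul dPs
      have q4 := dQs.congr_of_eventuallyEq (f₁ := fun s => (b0 t * s ^ 3) *
          fderiv ℝ F (v0 t + s • v1 t) (v1 t)) (by
        filter_upwards [hsn] with s' hs'
        exact ((key t s' ht0 hs').1).symm)
      have q5 := q4.unique q3
      rw [← hX, ← hP] at q5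
      exact q5
    -- E3
    have E3 : (2 * (a0 t - b1 t) * s - 4 * (a1 t * b0 t) * s ^ 3) * P +
        (1 + (a0 t - b1 t) * s ^ 2 - a1 t * b0 t * s ^ 4) * Ps = -1 := by
      have q1 : HasDerivAt (fun s : ℝ => 1 + (a0 t - b1 t) * s ^ 2 - a1 t * b0 t * s ^ 4)
          (2 * (a0 t - b1 t) * s - 4 * (a1 t * b0 t) * s ^ 3) s := by
        refine ((((hasDerivAt_pow 2 s).const_mul (a0 t - b1 t)).const_add 1).sub
          ((hasDerivAt_pow 4 s).const_mul (a1 t * b0 t))).congr_deriv ?_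
        push_cast
        ring
      have q3 := q1.mul dPs
      have q4 : HasDerivAt (fun s => (1 + (a0 t - b1 t) * s ^ 2 - a1 t * b0 t * s ^ 4) *
          fderiv ℝ F (v0 t + s • v1 t) (v1 t)) (-1) s := by
        refine (hasDerivAt_neg s).congr_of_eventuallyEq ?_
        filter_upwards [hsn] with s' hs'
        exact (key t s' ht0 hs').2
      have q5 := q3.unique q4
      rw [← hX, ← hP] at q5
      exact q5
    obtain ⟨Δ, hΔ⟩ : ∃ Δ, Δ = 1 + (a0 t - b1 t) * s ^ 2 - a1 t * b0 t * s ^ 4 := ⟨_, rfl⟩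
    rw [← hΔ] at E1 E3 E4
    rw [E2] at E1
    -- combine
    have F1 : s ^ 3 * ((a0' t - b1' t + 4 * b0 t) -
      (a1' t * b0 t + a1 t * b0' t - 2 * b0 t * (a0 t - b1 t)) * s ^ 2) = 0 := by
      linear_combination (-Δ) * E1 + ((a0' t - b1' t) * s ^ 2 -
        (a1' t * b0 t + a1 t * b0' t) * s ^ 4) * E4 + b0 t * s ^ 3 * Δ * E3 +
        3 * b0 t * s ^ 2 * Δ * E4 -
        b0 t * s ^ 3 * (2 * (a0 t - b1 t) * s - 4 * (a1 t * b0 t) * s ^ 3) * E4 -
        4 * b0 t * s ^ 3 * hΔ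
    exact F1
  have m1 := main (δ / 2) (by rw [abs_of_pos (by positivity)]; linarith)
  have m2 := main (δ / 3) (by rw [abs_of_pos (by positivity)]; linarith)
  have n1 := (mul_eq_zero.mp m1).resolve_left (by positivity)
  have n2 := (mul_eq_zero.mp m2).resolve_left (by positivity)
  have n3 : (a1' t * b0 t + a1 t * b0' t - 2 * b0 t * (a0 t - b1 t)) * (δ ^ 2) = 0 := by
    linear_combination (36 / 5) * n2 - (36 / 5) * n1
  have n4 := (mul_eq_zero.mp n3).resolve_right (by positivity)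
  rw [n4] at n1
  constructor
  · linarith
  · linarith

end Loc

end Pool.Agent.W5h70.PG
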