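import Pool.Agent.W5h70.PG.Rigid

set_option autoImplicit false

open Filter Topology Set Asymptotics

namespace Pool.Agent.W5h70.PG

/-- integration of a little-o estimate -/
theorem littleO_int {g g' : ℝ → ℝ} (n : ℕ) (h : ∀ᶠ s in 𝓝 (0 : ℝ), HasDerivAt g (g' s) s)
    (ho : g' =o[𝓝 0] fun s => s ^ n) (h0 : g 0 = 0) : g =o[𝓝 0] fun s => s ^ (n + 1) := by
  rw [isLittleO_iff]
  intro c hc
  rw [isLittleO_iff] at ho
  obtain ⟨δ, hδ, h1⟩ := Metric.eventually_nhds_iff_ball.mp (h.and (ho hc))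
  refine Metric.eventually_nhds_iff_ball.mpr ⟨δ, hδ, fun s hs => ?_⟩
  rw [Metric.mem_ball, dist_zero_right] at hs
  have hsub : ∀ x ∈ Metric.closedBall (0 : ℝ) ‖s‖, x ∈ Metric.ball (0 : ℝ) δ := fun x hx =>
    Metric.closedBall_subset_ball hs hx
  have h2 := Convex.norm_image_sub_le_of_norm_hasDerivWithin_le (f := g) (f' := g')
    (s := Metric.closedBall (0 : ℝ) ‖s‖) (C := c * ‖s‖ ^ n) (x := 0) (y := s)
    (fun x hx => (h1 x (hsub x hx)).1.hasDerivWithinAt)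
    (fun x hx => by
      refine (h1 x (hsub x hx)).2.trans ?_
      rw [norm_pow]
      rw [mem_closedBall_zero_iff] at hx
      exact mul_le_mul_of_nonneg_left (pow_le_pow_left₀ (norm_nonneg _) hx n) hc.le)
    (convex_closedBall _ _) (Metric.mem_closedBall_self (norm_nonneg _))
    (mem_closedBall_zero_iff.mpr le_rfl)
  rw [h0, sub_zero, sub_zero] at h2
  rw [norm_pow, pow_succ, ← mul_assoc]
  exact h2

/-- Local data: a function `F` near `v0 t₀`, homogeneous of degree zero and with `dF (A X) = 1`. -/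
structure Loc (A : (Fin 3 → ℝ) →L[ℝ] (Fin 3 → ℝ)) (v0 : ℝ → Fin 3 → ℝ)
    (F : (Fin 3 → ℝ) → ℝ) (Ω : Set (Fin 3 → ℝ)) (J : Set ℝ) : Prop where
  Ω_open : IsOpen Ω
  J_open : IsOpen J
  maps : ∀ t ∈ J, v0 t ∈ Ω
  smooth : ∀ X ∈ Ω, ContDiffAt ℝ 3 F X
  zero : ∀ t ∈ J, F (v0 t) = 0
  homog : ∀ X ∈ Ω, fderiv ℝ F X X = 0
  flow : ∀ X ∈ Ω, fderiv ℝ F X (A X) = 1

namespace Loc

variable {A : (Fin 3 → ℝ) →L[ℝ] (Fin 3 → ℝ)} {ν : ℝ → ℝ} {v0 v1 v2 : ℝ → Fin 3 → ℝ}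
  {k0 k1 a0 a1 : ℝ → ℝ} {F : (Fin 3 → ℝ) → ℝ} {Ω : Set (Fin 3 → ℝ)} {J : Set ℝ}

theorem c1 (hL : Loc A v0 F Ω J) {X : Fin 3 → ℝ} (hX : X ∈ Ω) :
    HasFDerivAt F (fderiv ℝ F X) X :=
  ((hL.smooth X hX).differentiableAt (by norm_num)).hasFDerivAt

theorem c2' (hL : Loc A v0 F Ω J) {X : Fin 3 → ℝ} (hX : X ∈ Ω) :
    ContDiffAt ℝ 2 (fderiv ℝ F) X := (hL.smooth X hX).fderiv_right (by norm_num)

theorem c2 (hL : Loc A v0 F Ω J) {X : Fin 3 → ℝ} (hX : X ∈ Ω) :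
    HasFDerivAt (fderiv ℝ F) (fderiv ℝ (fderiv ℝ F) X) X :=
  ((hL.c2' hX).differentiableAt (by norm_num)).hasFDerivAt

theorem c3 (hL : Loc A v0 F Ω J) {X : Fin 3 → ℝ} (hX : X ∈ Ω) :
    HasFDerivAt (fderiv ℝ (fderiv ℝ F)) (fderiv ℝ (fderiv ℝ (fderiv ℝ F)) X) X :=
  (((hL.c2' hX).fderiv_right (m := 1) (by norm_num)).differentiableAt (by norm_num)).hasFDerivAt

theorem symm (hL : Loc A v0 F Ω J) {X : Fin 3 → ℝ} (hX : X ∈ Ω) (u w : Fin 3 → ℝ) :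
    fderiv ℝ (fderiv ℝ F) X u w = fderiv ℝ (fderiv ℝ F) X w u :=
  ((hL.smooth X hX).isSymmSndFDerivAt (by simp; norm_num)) u w

/-- `∂_s` of `dF(X) w`, along a curve -/
theorem dcurve (hL : Loc A v0 F Ω J) {X w : ℝ → Fin 3 → ℝ} {X' w' : Fin 3 → ℝ} {s : ℝ}
    (hX : X s ∈ Ω) (h1 : HasDerivAt X X' s) (h2 : HasDerivAt w w' s) :
    HasDerivAt (fun s => fderiv ℝ F (X s) (w s))
      (fderiv ℝ (fderiv ℝ F) (X s) X' (w s) + fderiv ℝ F (X s) w') s := by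
  have h3 := (hL.c2 hX).comp_hasDerivAt s h1
  exact h3.clm_apply h2

theorem e1 (hL : Loc A v0 F Ω J) (H : Fr A ν v0 v1 v2 k0 k1 a0 a1) {t : ℝ} (ht : t ∈ J) :
    fderiv ℝ F (v0 t) (v1 t) = 0 := by
  have h1 := (hL.c1 (hL.maps t ht)).comp_hasDerivAt t (H.d0 t)
  have h2 : HasDerivAt (F ∘ v0) 0 t := by
    refine (hasDerivAt_const t (0 : ℝ)).congr_of_eventuallyEq ?_
    filter_upwards [hL.J_open.mem_nhds ht] with s hs
    exact hL.zero s hs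
  have h3 := h1.unique h2
  rw [map_smul, smul_eq_mul] at h3
  exact (mul_eq_zero.mp h3).resolve_left (H.ν_pos t).ne'

theorem e2 (hL : Loc A v0 F Ω J) (H : Fr A ν v0 v1 v2 k0 k1 a0 a1) {t : ℝ} (ht : t ∈ J) :
    fderiv ℝ F (v0 t) (v2 t) = 1 := by
  have h1 := hL.flow _ (hL.maps t ht)
  rw [H.hA t, map_add, map_add, map_smul, map_smul, hL.homog _ (hL.maps t ht), hL.e1 H ht] at h1
  simpa using h1

theorem e3 (hL : Loc A v0 F Ω J) (H : Fr A ν v0 v1 v2 k0 k1 a0 a1) {t : ℝ} (ht : t ∈ J) :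
    fderiv ℝ (fderiv ℝ F) (v0 t) (v1 t) (v1 t) = -1 := by
  have h1 := hL.dcurve (hL.maps t ht) (H.d0 t) (H.d1 t)
  have h2 : HasDerivAt (fun s => fderiv ℝ F (v0 s) (v1 s)) 0 t := by
    refine (hasDerivAt_const t (0 : ℝ)).congr_of_eventuallyEq ?_
    filter_upwards [hL.J_open.mem_nhds ht] with s hs
    exact hL.e1 H hs
  have h3 := h1.unique h2
  simp only [map_smul, smul_apply, smul_eq_mul] at h3
  rw [hL.e2 H ht, ← mul_add] at h3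
  have h4 := (mul_eq_zero.mp h3).resolve_left (H.ν_pos t).ne'
  linarith

theorem e4 (hL : Loc A v0 F Ω J) (H : Fr A ν v0 v1 v2 k0 k1 a0 a1) {t : ℝ} (ht : t ∈ J) :
    fderiv ℝ (fderiv ℝ (fderiv ℝ F)) (v0 t) (v1 t) (v1 t) (v1 t) +
      2 * fderiv ℝ (fderiv ℝ F) (v0 t) (v1 t) (v2 t) = 0 := by
  have h0 : HasDerivAt (fun s => fderiv ℝ (fderiv ℝ F) (v0 s))
      (fderiv ℝ (fderiv ℝ (fderiv ℝ F)) (v0 t) (ν t • v1 t)) t :=
    HasFDerivAt.comp_hasDerivAt (l := fderiv ℝ (fderiv ℝ F)) t (hL.c3 (hL.maps t ht)) (H.d0 t)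
  have h1 := (h0.clm_apply (H.d1 t)).clm_apply (H.d1 t)
  have h2 : HasDerivAt (fun s => fderiv ℝ (fderiv ℝ F) (v0 s) (v1 s) (v1 s)) 0 t := by
    refine (hasDerivAt_const t (-1 : ℝ)).congr_of_eventuallyEq ?_
    filter_upwards [hL.J_open.mem_nhds ht] with s hs
    exact hL.e3 H hs
  have h3 := h1.unique h2
  simp only [map_smul, smul_apply, smul_eq_mul, add_apply] at h3
  rw [hL.symm (hL.maps t ht) (v2 t) (v1 t)] at h3
  have h5 : ν t * (fderiv ℝ (fderiv ℝ (fderiv ℝ F)) (v0 t) (v1 t) (v1 t) (v1 t) +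
      2 * fderiv ℝ (fderiv ℝ F) (v0 t) (v1 t) (v2 t)) = 0 := by linarith
  exact (mul_eq_zero.mp h5).resolve_left (H.ν_pos t).ne'

/-- the points on the tangent line -/
theorem ev_mem (hL : Loc A v0 F Ω J) {t : ℝ} (ht : t ∈ J) :
    ∀ᶠ s in 𝓝 (0 : ℝ), v0 t + s • v1 t ∈ Ω := by
  have h1 : Continuous fun s : ℝ => v0 t + s • v1 t := by fun_prop
  refine h1.continuousAt.preimage_mem_nhds (hL.Ω_open.mem_nhds ?_)
  simpa using hL.maps t ht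

theorem line (t s : ℝ) : HasDerivAt (fun s : ℝ => v0 t + s • v1 t) (v1 t) s := by
  have := ((hasDerivAt_id' s).smul_const (v1 t)).const_add (v0 t)
  rwa [one_smul] at this

/-- the partial differential equation -/
theorem pde (hL : Loc A v0 F Ω J) (H : Fr A ν v0 v1 v2 k0 k1 a0 a1) {a0' a1' b0 b1 : ℝ → ℝ}
    (h0 : HD ν a0 a0') (h1 : HD ν a1 a1') (hb0 : ∀ t, b0 t = a0' t + k0 t)
    (hb1 : ∀ t, b1 t = a0 t + a1' t + k1 t) {t s : ℝ} (hX : v0 t + s • v1 t ∈ Ω) :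
    (1 + a1 t * s) * fderiv ℝ F (v0 t + s • v1 t) (v1 t + s • v2 t) =
      (1 + (a0 t - b1 t) * s ^ 2 + b0 t * s ^ 3) * fderiv ℝ F (v0 t + s • v1 t) (v1 t) + s := by
  obtain ⟨L, hLd⟩ : ∃ L, L = fderiv ℝ F (v0 t + s • v1 t) := ⟨_, rfl⟩
  have g1 := hL.homog _ hX
  have g2 := hL.flow _ hX
  rw [map_add A, map_smul A, H.hA t, H.Av1 h0 h1 t, ← hb0, ← hb1, ← hLd] at g2
  rw [← hLd] at g1 ⊢
  simp only [map_add, map_smul, smul_eq_mul] at g1 g2 ⊢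
  linear_combination (-(a0 t + s * b0 t) * s) * g1 + s * g2

end Loc

end Pool.Agent.W5h70.PG
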