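import Pool.Agent.W5h70.PG.Concl
import Pool.Agent.W5h70.PG.Pde

set_option autoImplicit false

open Filter Topology Set NormedSpace
open scoped ContDiff

namespace Pool.Agent.W5h70.PG

theorem exp_zero_app (A : (Fin 3 → ℝ) →L[ℝ] (Fin 3 → ℝ)) (X : Fin 3 → ℝ) :
    exp ((0 : ℝ) • A) X = X := by rw [zero_smul, NormedSpace.exp_zero]; rfl

theorem exp_add_app (A : (Fin 3 → ℝ) →L[ℝ] (Fin 3 → ℝ)) (r s : ℝ) (X : Fin 3 → ℝ) :
    exp ((r + s) • A) X = exp (r • A) (exp (s • A) X) := by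
  have h : Commute (r • A) (s • A) := ((Commute.refl A).smul_right s).smul_left r
  let _ : NormedAlgebra ℚ ((Fin 3 → ℝ) →L[ℝ] (Fin 3 → ℝ)) := NormedAlgebra.restrictScalars ℚ ℝ _
  rw [add_smul, NormedSpace.exp_add_of_commute h]
  rfl

theorem exp_hasDeriv (A : (Fin 3 → ℝ) →L[ℝ] (Fin 3 → ℝ)) (X : Fin 3 → ℝ) (τ : ℝ) :
    HasDerivAt (fun τ : ℝ => exp (τ • A) X) (A (exp (τ • A) X)) τ := by
  have h1 := hasDerivAt_exp_smul_const' (𝕂 := ℝ) A τ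
  have h2 := h1.clm_apply (hasDerivAt_const τ X)
  simpa using h2

theorem exp_contDiff (A : (Fin 3 → ℝ) →L[ℝ] (Fin 3 → ℝ)) :
    ContDiff ℝ ∞ (fun τ : ℝ => exp (τ • A)) := by
  have h1 : ContDiff ℝ ∞ (exp : ((Fin 3 → ℝ) →L[ℝ] (Fin 3 → ℝ)) → _) :=
    contDiff_iff_contDiffAt.mpr fun x => (exp_analytic (𝕂 := ℝ) x).contDiffAt
  exact h1.comp (contDiff_id.smul contDiff_const)

/-- the flow-out map -/
noncomputable def Phi (A : (Fin 3 → ℝ) →L[ℝ] (Fin 3 → ℝ)) (v0 : ℝ → Fin 3 → ℝ)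
    (q : ℝ × ℝ × ℝ) : Fin 3 → ℝ := q.1 • exp (q.2.1 • A) (v0 q.2.2)

theorem Phi_smooth (A : (Fin 3 → ℝ) →L[ℝ] (Fin 3 → ℝ)) {v0 : ℝ → Fin 3 → ℝ}
    (h : ContDiff ℝ ∞ v0) : ContDiff ℝ ∞ (Phi A v0) := by
  have h1 : ContDiff ℝ ∞ (fun q : ℝ × ℝ × ℝ => exp (q.2.1 • A)) :=
    (exp_contDiff A).comp contDiff_snd.fst
  have h2 : ContDiff ℝ ∞ (fun q : ℝ × ℝ × ℝ => v0 q.2.2) := h.comp contDiff_snd.snd
  exact contDiff_fst.smul (h1.clm_apply h2)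

/-- the candidate derivative -/
def lin3 (u v w : Fin 3 → ℝ) : (ℝ × ℝ × ℝ) →ₗ[ℝ] (Fin 3 → ℝ) where
  toFun q := q.1 • u + q.2.1 • v + q.2.2 • w
  map_add' q r := by
    simp only [Prod.fst_add, Prod.snd_add, add_smul]
    abel
  map_smul' c q := by
    simp only [Prod.smul_fst, Prod.smul_snd, smul_eq_mul, mul_smul, smul_add, RingHom.id_apply]

theorem lin3_inj {u v w : Fin 3 → ℝ} (h : det3 u v w ≠ 0) : Function.Injective (lin3 u v w) := by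
  rw [← LinearMap.ker_eq_bot, LinearMap.ker_eq_bot']
  rintro ⟨a, b, c⟩ h0
  have h1 : a • u + b • v + c • w = 0 := h0
  have e0 := congrFun h1 0
  have e1 := congrFun h1 1
  have e2 := congrFun h1 2
  simp only [Pi.add_apply, Pi.smul_apply, smul_eq_mul, Pi.zero_apply] at e0 e1 e2
  unfold det3 at h
  have ha : a = 0 := by
    refine (mul_eq_zero.mp ?_).resolve_right h
    linear_combination (v 1 * w 2 - v 2 * w 1) * e0 - (v 0 * w 2 - v 2 * w 0) * e1 +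
      (v 0 * w 1 - v 1 * w 0) * e2
  have hb : b = 0 := by
    refine (mul_eq_zero.mp ?_).resolve_right h
    linear_combination -(u 1 * w 2 - u 2 * w 1) * e0 + (u 0 * w 2 - u 2 * w 0) * e1 -
      (u 0 * w 1 - u 1 * w 0) * e2
  have hc : c = 0 := by
    refine (mul_eq_zero.mp ?_).resolve_right h
    linear_combination (u 1 * v 2 - u 2 * v 1) * e0 - (u 0 * v 2 - u 2 * v 0) * e1 +
      (u 0 * v 1 - u 1 * v 0) * e2
  rw [ha, hb, hc]
  rfl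

/-- the derivative as an equivalence -/
noncomputable def lin3Equiv {u v w : Fin 3 → ℝ} (h : det3 u v w ≠ 0) :
    (ℝ × ℝ × ℝ) ≃L[ℝ] (Fin 3 → ℝ) :=
  (LinearEquiv.ofInjectiveOfFinrankEq (lin3 u v w) (lin3_inj h)
    (by simp [Module.finrank_prod])).toContinuousLinearEquiv

theorem lin3Equiv_apply {u v w : Fin 3 → ℝ} (h : det3 u v w ≠ 0) (q : ℝ × ℝ × ℝ) :
    lin3Equiv h q = q.1 • u + q.2.1 • v + q.2.2 • w := rfl

theorem Phi_deriv (A : (Fin 3 → ℝ) →L[ℝ] (Fin 3 → ℝ)) {v0 : ℝ → Fin 3 → ℝ} {w : Fin 3 → ℝ}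
    {t₀ : ℝ} (hv : HasDerivAt v0 w t₀) (h : det3 (v0 t₀) (A (v0 t₀)) w ≠ 0) :
    HasFDerivAt (Phi A v0) (lin3Equiv h : (ℝ × ℝ × ℝ) →L[ℝ] (Fin 3 → ℝ)) (1, 0, t₀) := by
  have p1 : HasFDerivAt (fun q : ℝ × ℝ × ℝ => q.1) (ContinuousLinearMap.fst ℝ ℝ (ℝ × ℝ))
    (1, 0, t₀) := hasFDerivAt_fst
  have p2 : HasFDerivAt (fun q : ℝ × ℝ × ℝ => q.2.1)
    ((ContinuousLinearMap.fst ℝ ℝ ℝ).comp (ContinuousLinearMap.snd ℝ ℝ (ℝ × ℝ)))
    (1, 0, t₀) := hasFDerivAt_fst.comp _ hasFDerivAt_snd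
  have p3 : HasFDerivAt (fun q : ℝ × ℝ × ℝ => q.2.2)
    ((ContinuousLinearMap.snd ℝ ℝ ℝ).comp (ContinuousLinearMap.snd ℝ ℝ (ℝ × ℝ)))
    (1, 0, t₀) := hasFDerivAt_snd.comp _ hasFDerivAt_snd
  have e1 : HasDerivAt (fun τ : ℝ => exp (τ • A)) A (0 : ℝ) := by
    have := hasDerivAt_exp_smul_const' (𝕂 := ℝ) A 0
    simpa using this
  have e2 : HasFDerivAt (fun q : ℝ × ℝ × ℝ => exp (q.2.1 • A)) _ (1, 0, t₀) :=
    HasFDerivAt.comp (g := fun τ : ℝ => exp (τ • A)) (1, 0, t₀) e1.hasFDerivAt p2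
  have e3 : HasFDerivAt (fun q : ℝ × ℝ × ℝ => v0 q.2.2) _ (1, 0, t₀) :=
    HasFDerivAt.comp (g := v0) (1, 0, t₀) hv.hasFDerivAt p3
  have e4 := p1.smul (e2.clm_apply e3)
  refine e4.congr_fderiv ?_
  ext q
  all_goals simp [lin3Equiv_apply]

/-- local existence of `F` -/
theorem exists_loc {A : (Fin 3 → ℝ) →L[ℝ] (Fin 3 → ℝ)} {v0 : ℝ → Fin 3 → ℝ} {w : Fin 3 → ℝ}
    {t₀ : ℝ} (hs : ContDiff ℝ ∞ v0) (hv : HasDerivAt v0 w t₀)
    (h : det3 (v0 t₀) (A (v0 t₀)) w ≠ 0) :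
    ∃ (F : (Fin 3 → ℝ) → ℝ) (Ω : Set (Fin 3 → ℝ)) (J : Set ℝ), Loc A v0 F Ω J ∧ t₀ ∈ J ∧
      ∀ t ∈ J, ∀ ε > (0 : ℝ), ∀ᶠ X in 𝓝 (v0 t), |F X| < ε ∧ ∃ l t' : ℝ, 0 < l ∧ |t' - t| < ε ∧
        X = l • exp (F X • A) (v0 t') := by
  have hΦ : ContDiff ℝ ∞ (Phi A v0) := Phi_smooth A hs
  have hΦ' := Phi_deriv A hv h
  have hn : (∞ : WithTop ℕ∞) ≠ 0 := by simp
  set e := hΦ.contDiffAt.toOpenPartialHomeomorph (Phi A v0) hΦ' hn with he
  have hcoe : ∀ q, e q = Phi A v0 q := fun q => rfl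
  have hsrc : (1, 0, t₀) ∈ e.source :=
    hΦ.contDiffAt.mem_toOpenPartialHomeomorph_source hΦ' hn
  have hG : ContDiffAt ℝ ∞ e.symm (Phi A v0 (1, 0, t₀)) := hΦ.contDiffAt.to_localInverse hΦ' hn
  have hG3 : ∀ᶠ X in 𝓝 (Phi A v0 (1, 0, t₀)), ContDiffAt ℝ 3 e.symm X :=
    (hG.of_le (by norm_cast)).eventually (by norm_num)
  obtain ⟨Ω₁, hΩ₁, hΩ₁o, hΩ₁m⟩ := eventually_nhds_iff.mp hG3
  have hv00 : ∀ t, Phi A v0 (1, 0, t) = v0 t := fun t => by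
    show (1 : ℝ) • exp ((0 : ℝ) • A) (v0 t) = v0 t
    rw [one_smul, exp_zero_app]
  set F : (Fin 3 → ℝ) → ℝ := fun X => (e.symm X).2.1 with hF
  set Ω : Set (Fin 3 → ℝ) := e.target ∩ Ω₁ with hΩ
  set J : Set ℝ := {t | (1, 0, t) ∈ e.source} ∩ {t | v0 t ∈ Ω} with hJ
  have hΩo : IsOpen Ω := e.open_target.inter hΩ₁o
  have hc : Continuous fun t : ℝ => ((1, 0, t) : ℝ × ℝ × ℝ) := by fun_prop
  have hGJ : ∀ t ∈ J, e.symm (v0 t) = (1, 0, t) := fun t ht => by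
    rw [← hv00 t, ← hcoe]
    exact e.left_inv ht.1
  have hGc : ∀ X ∈ Ω, ContDiffAt ℝ 3 e.symm X := fun X hX => hΩ₁ X hX.2
  have hFs : ∀ X ∈ Ω, ContDiffAt ℝ 3 F X := fun X hX => ((hGc X hX).snd).fst
  refine ⟨F, Ω, J, ⟨hΩo, (e.open_source.preimage hc).inter (hΩo.preimage hs.continuous),
    fun t ht => ht.2, hFs, fun t ht => ?_, fun X hX => ?_, fun X hX => ?_⟩, ⟨hsrc, ?_⟩, ?_⟩
  · show (e.symm (v0 t)).2.1 = 0
    rw [hGJ t ht]
  · -- homogeneity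
    obtain ⟨q, hq⟩ : ∃ q, q = e.symm X := ⟨_, rfl⟩
    have hqs : q ∈ e.source := by rw [hq]; exact e.map_target hX.1
    have hqX : Phi A v0 q = X := by rw [hq, ← hcoe]; exact e.right_inv hX.1
    have h1 : ∀ᶠ r in 𝓝 (1 : ℝ), F (r • X) = q.2.1 := by
      have h2 : ContinuousAt (fun r : ℝ => ((r * q.1, q.2.1, q.2.2) : ℝ × ℝ × ℝ)) 1 :=
        Continuous.continuousAt (by fun_prop)
      have h3 : e.source ∈ 𝓝 ((fun r : ℝ => ((r * q.1, q.2.1, q.2.2) : ℝ × ℝ × ℝ)) 1) := by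
        apply e.open_source.mem_nhds
        simpa using hqs
      filter_upwards [h2.preimage_mem_nhds h3] with r hr
      have h4 : Phi A v0 (r * q.1, q.2.1, q.2.2) = r • X := by
        rw [← hqX]
        show (r * q.1) • _ = r • (q.1 • _)
        rw [mul_smul]
      show (e.symm (r • X)).2.1 = q.2.1
      rw [← h4, ← hcoe, e.left_inv hr]
    have h5 : HasDerivAt (fun r : ℝ => r • X) X 1 := by
      have := (hasDerivAt_id' (1 : ℝ)).smul_const X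
      rwa [one_smul] at this
    have h6 : HasFDerivAt F (fderiv ℝ F X) ((fun r : ℝ => r • X) 1) := by
      rw [show (fun r : ℝ => r • X) 1 = X from one_smul _ _]
      exact ((hFs X hX).differentiableAt (by norm_num)).hasFDerivAt
    have h7 := h6.comp_hasDerivAt (1 : ℝ) h5
    have h8 : HasDerivAt (F ∘ fun r : ℝ => r • X) 0 1 :=
      (hasDerivAt_const (1 : ℝ) q.2.1).congr_of_eventuallyEq h1
    exact h7.unique h8
  · obtain ⟨q, hq⟩ : ∃ q, q = e.symm X := ⟨_, rfl⟩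
    have hqs : q ∈ e.source := by rw [hq]; exact e.map_target hX.1
    have hqX : Phi A v0 q = X := by rw [hq, ← hcoe]; exact e.right_inv hX.1
    have h1 : ∀ᶠ r in 𝓝 (0 : ℝ), F (exp (r • A) X) = r + q.2.1 := by
      have h2 : ContinuousAt (fun r : ℝ => ((q.1, r + q.2.1, q.2.2) : ℝ × ℝ × ℝ)) 0 :=
        Continuous.continuousAt (by fun_prop)
      have h3 : e.source ∈ 𝓝 ((fun r : ℝ => ((q.1, r + q.2.1, q.2.2) : ℝ × ℝ × ℝ)) 0) := by
        apply e.open_source.mem_nhds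
        simpa using hqs
      filter_upwards [h2.preimage_mem_nhds h3] with r hr
      have h4 : Phi A v0 (q.1, r + q.2.1, q.2.2) = exp (r • A) X := by
        rw [← hqX]
        show q.1 • exp ((r + q.2.1) • A) (v0 q.2.2) = exp (r • A) (q.1 • _)
        rw [map_smul, exp_add_app]
      show (e.symm (exp (r • A) X)).2.1 = r + q.2.1
      rw [← h4, ← hcoe, e.left_inv hr]
    have h5 : HasDerivAt (fun r : ℝ => exp (r • A) X) (A X) 0 := by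
      have := exp_hasDeriv A X 0
      rwa [exp_zero_app] at this
    have h6 : HasFDerivAt F (fderiv ℝ F X) ((fun r : ℝ => exp (r • A) X) 0) := by
      rw [show (fun r : ℝ => exp (r • A) X) 0 = X from exp_zero_app A X]
      exact ((hFs X hX).differentiableAt (by norm_num)).hasFDerivAt
    have h7 := h6.comp_hasDerivAt (0 : ℝ) h5
    have h8 : HasDerivAt (F ∘ fun r : ℝ => exp (r • A) X) 1 0 :=
      ((hasDerivAt_id' (0 : ℝ)).add_const q.2.1).congr_of_eventuallyEq h1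
    exact h7.unique h8
  · show v0 t₀ ∈ Ω
    rw [← hv00 t₀]
    exact ⟨by rw [← hcoe]; exact e.map_source hsrc, hΩ₁m⟩
  · intro t ht ε hε
    have h1 : ContinuousAt e.symm (v0 t) := (hGc _ ht.2).continuousAt
    have h2 : Tendsto e.symm (𝓝 (v0 t)) (𝓝 (1, 0, t)) := by
      have := h1.tendsto
      rwa [hGJ t ht] at this
    have h3 : Tendsto (fun X => (e.symm X).1) (𝓝 (v0 t)) (𝓝 1) :=
      (continuous_fst.tendsto _).comp h2
    have h4 : Tendsto (fun X => (e.symm X).2.1) (𝓝 (v0 t)) (𝓝 0) :=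
      ((continuous_fst.comp continuous_snd).tendsto _).comp h2
    have h5 : Tendsto (fun X => (e.symm X).2.2) (𝓝 (v0 t)) (𝓝 t) :=
      ((continuous_snd.comp continuous_snd).tendsto _).comp h2
    filter_upwards [h3.eventually (lt_mem_nhds one_pos), Metric.tendsto_nhds.mp h4 ε hε,
      Metric.tendsto_nhds.mp h5 ε hε, hΩo.mem_nhds ht.2] with X x1 x2 x3 x4
    rw [Real.dist_eq, sub_zero] at x2
    rw [Real.dist_eq] at x3
    refine ⟨x2, (e.symm X).1, (e.symm X).2.2, x1, x3, ?_⟩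
    exact (e.right_inv x4.1).symm

end Pool.Agent.W5h70.PG
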