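import Pool.Agent.W5h70.PG.Proj
import Pool.Agent.W5h70.PG.Baire

set_option autoImplicit false

open Filter Topology Set NormedSpace Asymptotics
open scoped ContDiff

namespace Pool.Agent.W5h70.PG

namespace Cv

variable {A : (Fin 3 → ℝ) →L[ℝ] (Fin 3 → ℝ)} {p : ℝ → Fin 3 → ℝ} {L σ : ℝ}

theorem main (h : Cv A p L σ) (hp : ProjInv A p) :
    ∃ x y l : (Fin 3 → ℝ) →ₗ[ℝ] ℝ, LinearIndependent ℝ ![x, y, l] ∧ ∃ m : ℝ, 0 < m ∧
      ∀ t τ : ℝ, l (exp (τ • A) (p t)) ≠ 0 ∧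
        x (exp (τ • A) (p t)) ^ 2 + y (exp (τ • A) (p t)) ^ 2 =
          Real.exp (-m * τ) * l (exp (τ • A) (p t)) ^ 2 := by
  obtain ⟨k0, k1, a0, a1, H, ⟨sk0, sk1, sa0, sa1⟩, pk0, pk1, pa0, pa1⟩ := h.exists_frame
  have hμ : ∀ t, mu A p σ t ≠ 0 := fun t => (h.mu_pos t).ne'
  have hμs := h.mu_smooth
  have hμp := h.mu_per
  set ν : ℝ → ℝ := fun t => (mu A p σ t)⁻¹ with hν
  obtain ⟨a0', ea0'⟩ : ∃ f, f = Dm (mu A p σ) a0 := ⟨_, rfl⟩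
  obtain ⟨a1', ea1'⟩ : ∃ f, f = Dm (mu A p σ) a1 := ⟨_, rfl⟩
  have sa0' : ContDiff ℝ ∞ a0' := by rw [ea0']; exact Dm_smooth hμs sa0
  have sa1' : ContDiff ℝ ∞ a1' := by rw [ea1']; exact Dm_smooth hμs sa1
  have pa0' : ∀ t, a0' (t + L) = a0' t := by rw [ea0']; exact Dm_per hμp pa0
  have pa1' : ∀ t, a1' (t + L) = a1' t := by rw [ea1']; exact Dm_per hμp pa1
  have h0 : HD ν a0 a0' := by rw [ea0']; exact Dm_hd hμ sa0
  have h1 : HD ν a1 a1' := by rw [ea1']; exact Dm_hd hμ sa1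
  obtain ⟨a1'', ea1''⟩ : ∃ f, f = Dm (mu A p σ) a1' := ⟨_, rfl⟩
  have h1' : HD ν a1' a1'' := by rw [ea1'']; exact Dm_hd hμ sa1'
  obtain ⟨b0, eb0⟩ : ∃ f : ℝ → ℝ, ∀ t, f t = a0' t + k0 t := ⟨_, fun _ => rfl⟩
  obtain ⟨b1, eb1⟩ : ∃ f : ℝ → ℝ, ∀ t, f t = a0 t + a1' t + k1 t := ⟨_, fun _ => rfl⟩
  have sb0 : ContDiff ℝ ∞ b0 := by
    rw [show b0 = fun t => a0' t + k0 t from funext eb0]; exact sa0'.add sk0
  have sb1 : ContDiff ℝ ∞ b1 := by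
    rw [show b1 = fun t => a0 t + a1' t + k1 t from funext eb1]; exact (sa0.add sa1').add sk1
  have pb0 : ∀ t, b0 (t + L) = b0 t := fun t => by rw [eb0, eb0, pa0', pk0]
  have pb1 : ∀ t, b1 (t + L) = b1 t := fun t => by rw [eb1, eb1, pa0, pa1', pk1]
  obtain ⟨b0', eb0'⟩ : ∃ f, f = Dm (mu A p σ) b0 := ⟨_, rfl⟩
  obtain ⟨b1', eb1'⟩ : ∃ f, f = Dm (mu A p σ) b1 := ⟨_, rfl⟩
  have sb0' : ContDiff ℝ ∞ b0' := by rw [eb0']; exact Dm_smooth hμs sb0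
  have sb1' : ContDiff ℝ ∞ b1' := by rw [eb1']; exact Dm_smooth hμs sb1
  have pb1' : ∀ t, b1' (t + L) = b1' t := by rw [eb1']; exact Dm_per hμp pb1
  have h2 : HD ν b0 b0' := by rw [eb0']; exact Dm_hd hμ sb0
  have h3 : HD ν b1 b1' := by rw [eb1']; exact Dm_hd hμ sb1
  have h2' : HD ν b0' (Dm (mu A p σ) b0') := Dm_hd hμ sb0'
  have h3' : HD ν b1' (Dm (mu A p σ) b1') := Dm_hd hμ sb1'
  have hk0 : HD ν k0 (Dm (mu A p σ) k0) := Dm_hd hμ sk0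
  have hk1 : HD ν k1 (Dm (mu A p σ) k1) := Dm_hd hμ sk1
  -- the equations
  have I12 : ∀ t, a0' t - b1' t = -4 * b0 t ∧
      a1' t * b0 t + a1 t * b0' t = 2 * b0 t * (a0 t - b1 t) := by
    intro t
    have hdet : det3 (w0 A p σ t) (A (w0 A p σ t)) (ν t • w1 A p σ t) ≠ 0 := by
      have e1 := h.w_A t
      have e2 : det3 (w0 A p σ t) (A (w0 A p σ t)) (ν t • w1 A p σ t) =
          -(ν t * det3 (w0 A p σ t) (w1 A p σ t) (A (w0 A p σ t))) := by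
        unfold det3
        simp only [Pi.smul_apply, smul_eq_mul]
        ring
      rw [e2, e1, mul_one]
      exact neg_ne_zero.mpr (inv_ne_zero (hμ t))
    obtain ⟨F, Ω, J, hL, ht, hr⟩ := exists_loc h.w0_smooth (H.d0 t) hdet
    exact hL.eqs_all H h0 h1 eb0 eb1 h2 h3 sa0'.continuous sa1'.continuous sb0'.continuous
      sb1'.continuous (fun s hs => hL.even_of_proj H h0 h1 eb0 eb1 hs
        (h.ev_inv hp hL hr hs (hL.taylor3 H h0 h1 eb0 eb1 hs))) t ht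
  have R := H.rigid h0 h1 h1' eb0 eb1 h2 h2' h3 h3' hk0 hk1 (fun t => (I12 t).1)
    (fun t => (I12 t).2) h.L_pos pa0 pa1 pa1' pb0 pb1 pb1'
  have c1 : ∀ t, a1 t = a1 0 := fun t => h1.const_of_zero (fun t => (R t).1) t 0
  have c0 : ∀ t, a0 t = a0 0 := fun t => h0.const_of_zero (fun t => (R t).2.2.2.1) t 0
  have c2 : ∀ t, b1 t = b1 0 := fun t => h3.const_of_zero (fun t => (R t).2.2.1) t 0
  have ck0 : ∀ t, k0 t = 0 := fun t => (R t).2.2.2.2.1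
  have ck1 : ∀ t, k1 t = -(a0 0 - b1 0) := fun t => by rw [(R t).2.2.2.2.2, c0 t, c2 t]
  have hepos := H.e_pos ck0 ck1 h.L_pos h.w1_per h.w2_per
  obtain ⟨x, y, l, hli, hc⟩ := H.concl hepos rfl c0 c1 ck0 ck1
  refine ⟨x, y, l, hli, 2 * (a0 0 - b1 0), by positivity, fun t τ => ?_⟩
  obtain ⟨g1, g2⟩ := hc t τ
  have hla := h.la_ne t
  have e1 : exp (τ • A) (w0 A p σ t) = la A p σ t • exp (τ • A) (p t) := by
    show exp (τ • A) (la A p σ t • p t) = _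
    rw [map_smul]
  rw [e1] at g1 g2
  simp only [map_smul, smul_eq_mul] at g1 g2
  refine ⟨(mul_ne_zero_iff.mp g1).2, ?_⟩
  have h5 : la A p σ t ^ 2 * (x (exp (τ • A) (p t)) ^ 2 + y (exp (τ • A) (p t)) ^ 2) =
      la A p σ t ^ 2 * (Real.exp (-(2 * (a0 0 - b1 0)) * τ) * l (exp (τ • A) (p t)) ^ 2) := by
    rw [show -(2 * (a0 0 - b1 0)) * τ = -2 * (a0 0 - b1 0) * τ by ring]
    linear_combination g2
  exact mul_left_cancel₀ (pow_ne_zero 2 hla) h5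

end Cv

theorem sign_const {f : ℝ → ℝ} (hf : Continuous f) (h : ∀ t, f t ≠ 0) :
    (∀ t, 0 < f t) ∨ ∀ t, f t < 0 := by
  rcases lt_or_gt_of_ne (h 0) with h0 | h0
  · right
    intro t
    by_contra hcon
    push Not at hcon
    have h1 : (0 : ℝ) ∈ f '' univ := by
      have := isPreconnected_univ.intermediate_value (mem_univ (0 : ℝ)) (mem_univ t)
        hf.continuousOn
      exact this ⟨h0.le, hcon⟩
    obtain ⟨s, -, hs⟩ := h1
    exact h s hs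
  · left
    intro t
    by_contra hcon
    push Not at hcon
    have h1 : (0 : ℝ) ∈ f '' univ := by
      have := isPreconnected_univ.intermediate_value (mem_univ t) (mem_univ (0 : ℝ))
        hf.continuousOn
      exact this ⟨hcon, h0.le⟩
    obtain ⟨s, -, hs⟩ := h1
    exact h s hs

theorem exp_neg_smul (A : (Fin 3 → ℝ) →L[ℝ] (Fin 3 → ℝ)) (τ : ℝ) :
    exp (τ • (-A)) = exp ((-τ) • A) := by
  congr 1
  module

theorem ProjInv.neg {A : (Fin 3 → ℝ) →L[ℝ] (Fin 3 → ℝ)} {p : ℝ → Fin 3 → ℝ} (h : ProjInv A p) :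
    ProjInv (-A) p := by
  intro t₀
  obtain ⟨κ, ε, hε, H⟩ := h t₀
  refine ⟨κ, ε, hε, fun τ x y t₁ t₂ l₁ l₂ b1 b2 b3 b4 b5 b6 b7 b8 b9 b10 b11 => ?_⟩
  rw [exp_neg_smul] at b10 b11
  exact H (-τ) x y t₁ t₂ l₁ l₂ (by rwa [abs_neg]) b2 b3 b4 b5 b6 b7 b8 b9 b10 b11

theorem main {A : (Fin 3 → ℝ) →L[ℝ] (Fin 3 → ℝ)} {p : ℝ → Fin 3 → ℝ} {L : ℝ} (hL : 0 < L)
    (hs : ContDiff ℝ ∞ p) (hper : ∀ t, p (t + L) = p t)
    (hD : ∀ t, det3 (p t) (deriv p t) (deriv (deriv p) t) ≠ 0)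
    (hN : ∀ t, det3 (p t) (deriv p t) (A (p t)) ≠ 0) (hp : ProjInv A p) :
    ∃ x y l : (Fin 3 → ℝ) →ₗ[ℝ] ℝ, LinearIndependent ℝ ![x, y, l] ∧ ∃ m : ℝ, m ≠ 0 ∧
      ∀ t τ : ℝ, l (exp (τ • A) (p t)) ≠ 0 ∧
        x (exp (τ • A) (p t)) ^ 2 + y (exp (τ • A) (p t)) ^ 2 =
          Real.exp (m * τ) * l (exp (τ • A) (p t)) ^ 2 := by
  have sp1 : ContDiff ℝ ∞ (deriv p) := (contDiff_infty_iff_deriv.mp hs).2
  have sp2 : ContDiff ℝ ∞ (deriv (deriv p)) := (contDiff_infty_iff_deriv.mp sp1).2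
  have sA : ContDiff ℝ ∞ (fun t => A (p t)) := A.contDiff.comp hs
  have cD := (det3_smooth hs sp1 sp2).continuous
  have cN := (det3_smooth hs sp1 sA).continuous
  have step : ∀ (σ : ℝ), (σ = 1 ∨ σ = -1) →
      (∀ t, 0 < σ * det3 (p t) (deriv p t) (deriv (deriv p) t)) →
      ∃ x y l : (Fin 3 → ℝ) →ₗ[ℝ] ℝ, LinearIndependent ℝ ![x, y, l] ∧ ∃ m : ℝ, m ≠ 0 ∧
      ∀ t τ : ℝ, l (exp (τ • A) (p t)) ≠ 0 ∧
        x (exp (τ • A) (p t)) ^ 2 + y (exp (τ • A) (p t)) ^ 2 =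
          Real.exp (m * τ) * l (exp (τ • A) (p t)) ^ 2 := by
    intro σ hσ hc
    have hσ0 : σ ≠ 0 := by rcases hσ with h | h <;> rw [h] <;> norm_num
    rcases sign_const (f := fun t => σ * det3 (p t) (deriv p t) (A (p t)))
      (continuous_const.mul cN) (fun t => mul_ne_zero hσ0 (hN t)) with h1 | h1
    · have C : Cv A p L σ := ⟨hL, hs, hper, hσ, hc, h1⟩
      obtain ⟨x, y, l, hli, m, hm, H⟩ := C.main hp
      exact ⟨x, y, l, hli, -m, neg_ne_zero.mpr hm.ne', H⟩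
    · have C : Cv (-A) p L σ := ⟨hL, hs, hper, hσ, hc, fun t => by
        have h2 := h1 t
        have h3 : σ * det3 (p t) (deriv p t) ((-A) (p t)) =
            -(σ * det3 (p t) (deriv p t) (A (p t))) := by
          unfold det3
          simp only [neg_apply, Pi.neg_apply]
          ring
        rw [h3]
        exact neg_pos.mpr h2⟩
      obtain ⟨x, y, l, hli, m, hm, H⟩ := C.main hp.neg
      refine ⟨x, y, l, hli, m, hm.ne', fun t τ => ?_⟩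
      have H' := H t (-τ)
      rwa [exp_neg_smul, neg_neg, neg_mul_neg] at H'
  rcases sign_const cD hD with h1 | h1
  · exact step 1 (Or.inl rfl) (fun t => by rw [one_mul]; exact h1 t)
  · exact step (-1) (Or.inr rfl) (fun t => by
      have := h1 t
      linarith)

end Pool.Agent.W5h70.PG
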