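import Pool.Agent.W5h70.PG.Concl

set_option autoImplicit false

open Filter Topology Set
open scoped ContDiff

namespace Pool.Agent.W5h70.PG

section D

variable {V : Type*} [NormedAddCommGroup V] [NormedSpace ℝ V]

/-- the derivation `μ d/dt` -/
noncomputable def Dm (μ : ℝ → ℝ) (f : ℝ → V) : ℝ → V := fun t => μ t • deriv f t

theorem Dm_smooth {μ : ℝ → ℝ} (hμ : ContDiff ℝ ∞ μ) {f : ℝ → V} (hf : ContDiff ℝ ∞ f) :
    ContDiff ℝ ∞ (Dm μ f) := hμ.smul (contDiff_infty_iff_deriv.mp hf).2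

theorem Dm_hd {μ : ℝ → ℝ} (hμ : ∀ t, μ t ≠ 0) {f : ℝ → V} (hf : ContDiff ℝ ∞ f) :
    HD (fun t => (μ t)⁻¹) f (Dm μ f) := fun t => by
  unfold Dm
  rw [smul_smul, inv_mul_cancel₀ (hμ t), one_smul]
  exact (hf.differentiable (by simp) t).hasDerivAt

theorem Dm_per {μ : ℝ → ℝ} {L : ℝ} (hμ : ∀ t, μ (t + L) = μ t) {f : ℝ → V}
    (hf : ∀ t, f (t + L) = f t) (t : ℝ) : Dm μ f (t + L) = Dm μ f t := by
  unfold Dm
  rw [hμ]
  congr 1
  have h1 : deriv (fun t => f (t + L)) t = deriv f (t + L) := deriv_comp_add_const f L t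
  have h2 : (fun t => f (t + L)) = f := funext hf
  rw [h2] at h1
  exact h1.symm

end D

theorem det3_smooth {u v w : ℝ → Fin 3 → ℝ} (hu : ContDiff ℝ ∞ u) (hv : ContDiff ℝ ∞ v)
    (hw : ContDiff ℝ ∞ w) : ContDiff ℝ ∞ (fun t => det3 (u t) (v t) (w t)) := by
  have a := fun i => contDiff_pi.mp hu i
  have b := fun i => contDiff_pi.mp hv i
  have c := fun i => contDiff_pi.mp hw i
  unfold det3
  exact (((a 0).mul (((b 1).mul (c 2)).sub ((b 2).mul (c 1)))).sub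
    ((a 1).mul (((b 0).mul (c 2)).sub ((b 2).mul (c 0))))).add
    ((a 2).mul (((b 0).mul (c 1)).sub ((b 1).mul (c 0))))

/-- Data of a curve transversal to the group. -/
structure Cv (A : (Fin 3 → ℝ) →L[ℝ] (Fin 3 → ℝ)) (p : ℝ → Fin 3 → ℝ) (L σ : ℝ) : Prop where
  L_pos : 0 < L
  smooth : ContDiff ℝ ∞ p
  per : ∀ t, p (t + L) = p t
  sig : σ = 1 ∨ σ = -1
  curved : ∀ t, 0 < σ * det3 (p t) (deriv p t) (deriv (deriv p) t)
  trans : ∀ t, 0 < σ * det3 (p t) (deriv p t) (A (p t))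

namespace Cv

variable {A : (Fin 3 → ℝ) →L[ℝ] (Fin 3 → ℝ)} {p : ℝ → Fin 3 → ℝ} {L σ : ℝ}

/-- the speed -/
noncomputable def mu (A : (Fin 3 → ℝ) →L[ℝ] (Fin 3 → ℝ)) (p : ℝ → Fin 3 → ℝ) (σ : ℝ) (t : ℝ) : ℝ :=
  √((σ * det3 (p t) (deriv p t) (A (p t))) / (σ * det3 (p t) (deriv p t) (deriv (deriv p) t)))

/-- the normalising factor -/
noncomputable def la (A : (Fin 3 → ℝ) →L[ℝ] (Fin 3 → ℝ)) (p : ℝ → Fin 3 → ℝ) (σ : ℝ) (t : ℝ) : ℝ :=
  σ * ((mu A p σ t) ^ 3 * (σ * det3 (p t) (deriv p t) (deriv (deriv p) t))) ^ (-(1 / 3 : ℝ))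

theorem p1 (h : Cv A p L σ) : ContDiff ℝ ∞ (deriv p) := (contDiff_infty_iff_deriv.mp h.smooth).2

theorem p2 (h : Cv A p L σ) : ContDiff ℝ ∞ (deriv (deriv p)) :=
  (contDiff_infty_iff_deriv.mp h.p1).2

theorem Ap (h : Cv A p L σ) : ContDiff ℝ ∞ (fun t => A (p t)) := A.contDiff.comp h.smooth

theorem arg_pos (h : Cv A p L σ) (t : ℝ) : 0 < (σ * det3 (p t) (deriv p t) (A (p t))) /
    (σ * det3 (p t) (deriv p t) (deriv (deriv p) t)) := div_pos (h.trans t) (h.curved t)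

theorem mu_pos (h : Cv A p L σ) (t : ℝ) : 0 < mu A p σ t := Real.sqrt_pos.mpr (h.arg_pos t)

theorem mu_smooth (h : Cv A p L σ) : ContDiff ℝ ∞ (mu A p σ) := by
  have h1 : ContDiff ℝ ∞ (fun t => (σ * det3 (p t) (deriv p t) (A (p t))) /
      (σ * det3 (p t) (deriv p t) (deriv (deriv p) t))) :=
    (contDiff_const.mul (det3_smooth h.smooth h.p1 h.Ap)).div
      (contDiff_const.mul (det3_smooth h.smooth h.p1 h.p2)) (fun t => (h.curved t).ne')
  exact h1.sqrt (fun t => (h.arg_pos t).ne')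

theorem mu_sq (h : Cv A p L σ) (t : ℝ) : mu A p σ t ^ 2 *
    (σ * det3 (p t) (deriv p t) (deriv (deriv p) t)) = σ * det3 (p t) (deriv p t) (A (p t)) := by
  unfold mu
  rw [Real.sq_sqrt (h.arg_pos t).le, div_mul_cancel₀ _ (h.curved t).ne']

theorem base_pos (h : Cv A p L σ) (t : ℝ) : 0 < (mu A p σ t) ^ 3 *
    (σ * det3 (p t) (deriv p t) (deriv (deriv p) t)) :=
  mul_pos (pow_pos (h.mu_pos t) 3) (h.curved t)

theorem la_smooth (h : Cv A p L σ) : ContDiff ℝ ∞ (la A p σ) := by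
  have h1 : ContDiff ℝ ∞ (fun t => (mu A p σ t) ^ 3 *
    (σ * det3 (p t) (deriv p t) (deriv (deriv p) t))) :=
    (h.mu_smooth.pow 3).mul (contDiff_const.mul (det3_smooth h.smooth h.p1 h.p2))
  exact contDiff_const.mul (h1.rpow_const_of_ne (fun t => (h.base_pos t).ne'))

theorem sig2 (h : Cv A p L σ) : σ * σ = 1 := by
  rcases h.sig with h1 | h1 <;> rw [h1] <;> norm_num

theorem la_cube (h : Cv A p L σ) (t : ℝ) : la A p σ t ^ 3 * (mu A p σ t ^ 3 *
    det3 (p t) (deriv p t) (deriv (deriv p) t)) = 1 := by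
  have h1 := h.base_pos t
  unfold la
  rw [mul_pow, ← Real.rpow_natCast (_ ^ (-(1 / 3 : ℝ))) 3, ← Real.rpow_mul h1.le]
  have h2 : -(1 / 3 : ℝ) * ((3 : ℕ) : ℝ) = -1 := by norm_num
  rw [h2, Real.rpow_neg_one]
  have h3 := h.sig2
  have h4 : mu A p σ t ^ 3 * det3 (p t) (deriv p t) (deriv (deriv p) t) =
      σ * (mu A p σ t ^ 3 * (σ * det3 (p t) (deriv p t) (deriv (deriv p) t))) := by
    linear_combination (-(mu A p σ t ^ 3 * det3 (p t) (deriv p t) (deriv (deriv p) t))) * h3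
  rw [h4]
  have h6 := mul_inv_cancel₀ h1.ne'
  have h7 : σ ^ 3 * σ = 1 := by
    have : σ ^ 3 * σ = (σ * σ) * (σ * σ) := by ring
    rw [this, h3]; norm_num
  linear_combination σ ^ 3 * σ * h6 + h7

theorem la_sign (h : Cv A p L σ) (t : ℝ) : 0 < σ * la A p σ t := by
  unfold la
  rw [← mul_assoc, h.sig2, one_mul]
  exact Real.rpow_pos_of_pos (h.base_pos t) _

theorem la_ne (h : Cv A p L σ) (t : ℝ) : la A p σ t ≠ 0 := fun h0 => by
  have := h.la_sign t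
  rw [h0, mul_zero] at this
  exact lt_irrefl _ this

theorem dper {V : Type*} [NormedAddCommGroup V] [NormedSpace ℝ V] {f : ℝ → V} {L : ℝ}
    (hf : ∀ t, f (t + L) = f t) (t : ℝ) : deriv f (t + L) = deriv f t := by
  have h1 : deriv (fun t => f (t + L)) t = deriv f (t + L) := deriv_comp_add_const f L t
  have h2 : (fun t => f (t + L)) = f := funext hf
  rw [h2] at h1
  exact h1.symm

theorem mu_per (h : Cv A p L σ) (t : ℝ) : mu A p σ (t + L) = mu A p σ t := by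
  unfold mu
  rw [h.per, dper h.per, dper (dper h.per)]

theorem la_per (h : Cv A p L σ) (t : ℝ) : la A p σ (t + L) = la A p σ t := by
  unfold la
  rw [h.per, dper h.per, dper (dper h.per), h.mu_per]

/-- the normalised lift and its derivatives -/
noncomputable def w0 (A : (Fin 3 → ℝ) →L[ℝ] (Fin 3 → ℝ)) (p : ℝ → Fin 3 → ℝ) (σ : ℝ) :
    ℝ → Fin 3 → ℝ := fun t => la A p σ t • p t

noncomputable def w1 (A : (Fin 3 → ℝ) →L[ℝ] (Fin 3 → ℝ)) (p : ℝ → Fin 3 → ℝ) (σ : ℝ) :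
    ℝ → Fin 3 → ℝ := Dm (mu A p σ) (w0 A p σ)

noncomputable def w2 (A : (Fin 3 → ℝ) →L[ℝ] (Fin 3 → ℝ)) (p : ℝ → Fin 3 → ℝ) (σ : ℝ) :
    ℝ → Fin 3 → ℝ := Dm (mu A p σ) (w1 A p σ)

theorem w0_smooth (h : Cv A p L σ) : ContDiff ℝ ∞ (w0 A p σ) := h.la_smooth.smul h.smooth

theorem w1_smooth (h : Cv A p L σ) : ContDiff ℝ ∞ (w1 A p σ) := Dm_smooth h.mu_smooth h.w0_smooth

theorem w2_smooth (h : Cv A p L σ) : ContDiff ℝ ∞ (w2 A p σ) := Dm_smooth h.mu_smooth h.w1_smooth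

theorem w1_eq (h : Cv A p L σ) (t : ℝ) : w1 A p σ t = mu A p σ t •
    (deriv (la A p σ) t • p t + la A p σ t • deriv p t) := by
  have h1 := ((h.la_smooth.differentiable (by simp) t).hasDerivAt.smul
    (h.smooth.differentiable (by simp) t).hasDerivAt).deriv
  have h2 : deriv (w0 A p σ) t = deriv (la A p σ) t • p t + la A p σ t • deriv p t := by
    rw [add_comm]
    exact h1
  show mu A p σ t • deriv (w0 A p σ) t = _
  rw [h2]

theorem w2_eq (h : Cv A p L σ) (t : ℝ) : ∃ c d : ℝ, w2 A p σ t = c • p t + d • deriv p t +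
    (mu A p σ t ^ 2 * la A p σ t) • deriv (deriv p) t := by
  have hla := h.la_smooth
  have hla1 : ContDiff ℝ ∞ (deriv (la A p σ)) := (contDiff_infty_iff_deriv.mp hla).2
  have d1 := (h.mu_smooth.differentiable (by simp) t).hasDerivAt
  have d2 := (hla.differentiable (by simp) t).hasDerivAt
  have d3 := (hla1.differentiable (by simp) t).hasDerivAt
  have d4 := (h.smooth.differentiable (by simp) t).hasDerivAt
  have d5 := (h.p1.differentiable (by simp) t).hasDerivAt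
  have h1 := (d1.smul ((d3.smul d4).add (d2.smul d5))).deriv
  have h2 : w1 A p σ = (mu A p σ) • (deriv (la A p σ) • p + la A p σ • deriv p) := by
    funext t
    exact h.w1_eq t
  refine ⟨mu A p σ t * (mu A p σ t * deriv (deriv (la A p σ)) t +
    deriv (mu A p σ) t * deriv (la A p σ) t),
    mu A p σ t * (mu A p σ t * deriv (la A p σ) t + mu A p σ t * deriv (la A p σ) t +
    deriv (mu A p σ) t * la A p σ t), ?_⟩
  show mu A p σ t • deriv (w1 A p σ) t = _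
  rw [h2, h1]
  simp only [Pi.add_apply, Pi.smul_apply']
  module

theorem w_det (h : Cv A p L σ) (t : ℝ) : det3 (w0 A p σ t) (w1 A p σ t) (w2 A p σ t) = 1 := by
  obtain ⟨c, d, h1⟩ := h.w2_eq t
  rw [h1, h.w1_eq t]
  have h2 := h.la_cube t
  show det3 (la A p σ t • p t) _ _ = 1
  unfold det3 at h2 ⊢
  simp only [Pi.add_apply, Pi.smul_apply, smul_eq_mul]
  linear_combination h2

theorem w_A (h : Cv A p L σ) (t : ℝ) :
    det3 (w0 A p σ t) (w1 A p σ t) (A (w0 A p σ t)) = 1 := by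
  have h2 := h.la_cube t
  have h3 := h.mu_sq t
  have h4 := h.sig2
  have h5 : mu A p σ t ^ 2 * det3 (p t) (deriv p t) (deriv (deriv p) t) =
      det3 (p t) (deriv p t) (A (p t)) := by
    linear_combination σ * h3 + (det3 (p t) (deriv p t) (A (p t)) -
      mu A p σ t ^ 2 * det3 (p t) (deriv p t) (deriv (deriv p) t)) * h4
  have h6 : la A p σ t ^ 3 * (mu A p σ t * det3 (p t) (deriv p t) (A (p t))) = 1 := by
    rw [← h5, ← h2]; ring
  rw [h.w1_eq t]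
  show det3 (la A p σ t • p t) _ (A (la A p σ t • p t)) = 1
  rw [map_smul]
  unfold det3 at h6 ⊢
  simp only [Pi.add_apply, Pi.smul_apply, smul_eq_mul]
  linear_combination h6

theorem w0_per (h : Cv A p L σ) (t : ℝ) : w0 A p σ (t + L) = w0 A p σ t := by
  show la A p σ (t + L) • p (t + L) = la A p σ t • p t
  rw [h.per, h.la_per]

theorem w1_per (h : Cv A p L σ) (t : ℝ) : w1 A p σ (t + L) = w1 A p σ t :=
  Dm_per h.mu_per h.w0_per t

theorem w2_per (h : Cv A p L σ) (t : ℝ) : w2 A p σ (t + L) = w2 A p σ t :=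
  Dm_per h.mu_per h.w1_per t

/-- the frame exists -/
theorem exists_frame (h : Cv A p L σ) : ∃ k0 k1 a0 a1 : ℝ → ℝ,
    Fr A (fun t => (mu A p σ t)⁻¹) (w0 A p σ) (w1 A p σ) (w2 A p σ) k0 k1 a0 a1 ∧
    (ContDiff ℝ ∞ k0 ∧ ContDiff ℝ ∞ k1 ∧ ContDiff ℝ ∞ a0 ∧ ContDiff ℝ ∞ a1) ∧
    (∀ t, k0 (t + L) = k0 t) ∧ (∀ t, k1 (t + L) = k1 t) ∧ (∀ t, a0 (t + L) = a0 t) ∧
    ∀ t, a1 (t + L) = a1 t := by
  have hμ : ∀ t, mu A p σ t ≠ 0 := fun t => (h.mu_pos t).ne'
  set v0 := w0 A p σ with hv0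
  set v1 := w1 A p σ with hv1
  set v2 := w2 A p σ with hv2
  set v3 := Dm (mu A p σ) v2 with hv3
  have s0 := h.w0_smooth
  have s1 := h.w1_smooth
  have s2 := h.w2_smooth
  have s3 : ContDiff ℝ ∞ v3 := Dm_smooth h.mu_smooth s2
  have sA : ContDiff ℝ ∞ (fun t => A (v0 t)) := A.contDiff.comp s0
  have d0 : HD (fun t => (mu A p σ t)⁻¹) v0 v1 := Dm_hd hμ s0
  have d1 : HD (fun t => (mu A p σ t)⁻¹) v1 v2 := Dm_hd hμ s1
  have d2 : HD (fun t => (mu A p σ t)⁻¹) v2 v3 := Dm_hd hμ s2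
  have per3 : ∀ t, v3 (t + L) = v3 t := Dm_per h.mu_per h.w2_per
  have hz : ∀ t, det3 (v0 t) (v1 t) (v3 t) = 0 := by
    have e1 := d0.det d1 d2
    have e2 : HD (fun t => (mu A p σ t)⁻¹) (fun t => det3 (v0 t) (v1 t) (v2 t))
        (fun _ => (0 : ℝ)) := fun t => by
      have e3 : (fun t => det3 (v0 t) (v1 t) (v2 t)) = fun _ => 1 := funext h.w_det
      rw [e3, smul_zero]
      exact hasDerivAt_const t 1
    intro t
    have e4 := e1.unique (fun t => inv_ne_zero (hμ t)) e2 t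
    have e5 : det3 (v1 t) (v1 t) (v2 t) = 0 := by unfold det3; ring
    have e6 : det3 (v0 t) (v2 t) (v2 t) = 0 := by unfold det3; ring
    rw [e5, e6] at e4
    linarith
  refine ⟨fun t => det3 (v3 t) (v1 t) (v2 t), fun t => det3 (v0 t) (v3 t) (v2 t),
    fun t => det3 (A (v0 t)) (v1 t) (v2 t), fun t => det3 (v0 t) (A (v0 t)) (v2 t),
    { ν_pos := fun t => inv_pos.mpr (h.mu_pos t), det := h.w_det, d0 := d0, d1 := d1, d2 := ?_,
      hA := ?_ }, ⟨det3_smooth s3 s1 s2, det3_smooth s0 s3 s2, det3_smooth sA s1 s2,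
      det3_smooth s0 sA s2⟩, ?_, ?_, ?_, ?_⟩
  · refine d2.congr (fun _ => rfl) (fun t => ?_)
    have := cramer (v0 := v0 t) (v1 := v1 t) (v2 := v2 t) (v3 t)
    rw [h.w_det t, one_smul, hz t, zero_smul, add_zero] at this
    exact this
  · intro t
    have := cramer (v0 := v0 t) (v1 := v1 t) (v2 := v2 t) (A (v0 t))
    rw [h.w_det t, one_smul, h.w_A t, one_smul] at this
    exact this
  · intro t
    simp only [per3, hv1, hv2, h.w1_per, h.w2_per]
  · intro t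
    simp only [per3, hv0, hv2, h.w0_per, h.w2_per]
  · intro t
    simp only [hv0, hv1, hv2, h.w0_per, h.w1_per, h.w2_per]
  · intro t
    simp only [hv0, hv2, h.w0_per, h.w2_per]

end Cv

end Pool.Agent.W5h70.PG
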