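import Pool.Agent.W5h70.PG.Norm
import Pool.Agent.W5h70.PG.Inv
import Pool.Agent.W5h70.PG.Even

set_option autoImplicit false

open Filter Topology Set NormedSpace Asymptotics
open scoped ContDiff

namespace Pool.Agent.W5h70.PG

/-- the points of the tangent line at `t₀` near `p t₀` which lie on one leaf `exp(τ A) γ` are
exchanged by a projective involution -/
def ProjInv (A : (Fin 3 → ℝ) →L[ℝ] (Fin 3 → ℝ)) (p : ℝ → Fin 3 → ℝ) : Prop :=
  ∀ t₀ : ℝ, ∃ κ ε : ℝ, 0 < ε ∧ ∀ τ x y t₁ t₂ l₁ l₂ : ℝ, |τ| < ε → 0 < x → x < ε → 0 < y → y < ε →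
    |t₁ - t₀| < ε → |t₂ - t₀| < ε → 0 < l₁ → 0 < l₂ →
    exp (τ • A) (p t₁) = l₁ • (p t₀ + x • deriv p t₀) →
    exp (τ • A) (p t₂) = l₂ • (p t₀ - y • deriv p t₀) → 1 / x - 1 / y = κ

theorem proj_of_pairs {h : ℝ → ℝ} {c η : ℝ} (hη : 0 < η) (hc : ∀ s, |s| < η → ContinuousAt h s)
    (h0 : h 0 = 0) (hneg : ∀ s, s ≠ 0 → |s| < η → h s < 0)
    (hp : ∀ s s', 0 < s → s < η → 0 < s' → s' < η → h s = h (-s') → 1 / s - 1 / s' = -c) :
    ∀ᶠ s in 𝓝 (0 : ℝ), h s = h (-(s / (1 + c * s))) := by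
  have hδ : |η / 2| < η := by rw [abs_of_pos (by positivity)]; linarith
  have hδ' : |-(η / 2)| < η := by rwa [abs_neg]
  have n1 := hneg (η / 2) (by positivity) hδ
  have n2 := hneg (-(η / 2)) (by linarith [half_pos hη]) hδ'
  have hc0 : ContinuousAt h 0 := hc 0 (by simpa using hη)
  have e1 : ∀ᶠ s in 𝓝 (0 : ℝ), h (η / 2) < h s :=
    hc0.eventually (lt_mem_nhds (by rwa [h0]))
  have e2 : ∀ᶠ s in 𝓝 (0 : ℝ), h (-(η / 2)) < h s :=
    hc0.eventually (lt_mem_nhds (by rwa [h0]))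
  have e3 : ∀ᶠ s in 𝓝 (0 : ℝ), |s| < η := by
    refine Metric.eventually_nhds_iff.mpr ⟨η, hη, fun s hs => ?_⟩
    rwa [Real.dist_eq, sub_zero] at hs
  filter_upwards [e1, e2, e3] with s s1 s2 s3
  rcases lt_trichotomy s 0 with hs | hs | hs
  · -- negative
    have cont : ContinuousOn h (Icc 0 (η / 2)) := fun r hr =>
      (hc r (by rw [abs_of_nonneg hr.1]; linarith [hr.2])).continuousWithinAt
    have hv : h s ∈ Icc (h (η / 2)) (h 0) := ⟨s1.le, by rw [h0]; exact (hneg s hs.ne s3).le⟩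
    obtain ⟨r, hr, hrs⟩ := intermediate_value_Icc' (by positivity) cont hv
    have hr0 : r ≠ 0 := fun h1 => by
      rw [h1, h0] at hrs
      have := hneg s hs.ne s3
      linarith
    have hrp : 0 < r := lt_of_le_of_ne hr.1 (Ne.symm hr0)
    have hs' : 0 < -s := by linarith
    have h2 := hp r (-s) hrp (by linarith [hr.2]) hs' (by rw [abs_of_neg hs] at s3; exact s3)
      (by rw [neg_neg]; exact hrs)
    have h3 : r * (1 + c * s) = -s := by
      have hsn : s ≠ 0 := hs.ne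
      field_simp at h2
      linear_combination h2
    have h4 : 1 + c * s ≠ 0 := fun h5 => by
      rw [h5, mul_zero] at h3
      linarith
    have h6 : -(s / (1 + c * s)) = r := by
      rw [← neg_div, ← h3, mul_div_assoc, div_self h4, mul_one]
    rw [h6, hrs]
  · rw [hs]; simp
  · have cont : ContinuousOn (fun r => h (-r)) (Icc 0 (η / 2)) := fun r hr => by
      have h1 : ContinuousAt h (-r) := hc (-r) (by rw [abs_neg, abs_of_nonneg hr.1]; linarith [hr.2])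
      exact (ContinuousAt.comp (g := h) h1 continuous_neg.continuousAt).continuousWithinAt
    have hv : h s ∈ Icc ((fun r => h (-r)) (η / 2)) ((fun r => h (-r)) 0) :=
      ⟨s2.le, by simp only [neg_zero, h0]; exact (hneg s hs.ne' s3).le⟩
    obtain ⟨r, hr, hrs⟩ := intermediate_value_Icc' (by positivity) cont hv
    simp only at hrs
    have hr0 : r ≠ 0 := fun h1 => by
      rw [h1, neg_zero, h0] at hrs
      have := hneg s hs.ne' s3
      linarith
    have hrp : 0 < r := lt_of_le_of_ne hr.1 (Ne.symm hr0)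
    have h2 := hp s r hs (by rw [abs_of_pos hs] at s3; exact s3) hrp (by linarith [hr.2]) hrs.symm
    have h3 : r * (1 + c * s) = s := by
      have hsn : s ≠ 0 := hs.ne'
      field_simp at h2
      linear_combination h2
    have h4 : 1 + c * s ≠ 0 := fun h5 => by
      rw [h5, mul_zero] at h3
      linarith
    have h6 : s / (1 + c * s) = r := by
      rw [eq_comm, eq_div_iff h4, h3]
    rw [h6, hrs]

namespace Cv

variable {A : (Fin 3 → ℝ) →L[ℝ] (Fin 3 → ℝ)} {p : ℝ → Fin 3 → ℝ} {L σ : ℝ}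

theorem pt_form (h : Cv A p L σ) (t s : ℝ) {q : ℝ}
    (hq : q = mu A p σ t * deriv (la A p σ) t / la A p σ t) (hs : 1 + s * q ≠ 0) :
    w0 A p σ t + s • w1 A p σ t = (la A p σ t * (1 + s * q)) •
      (p t + (s * mu A p σ t / (1 + s * q)) • deriv p t) := by
  have hla := h.la_ne t
  have h1 : la A p σ t * q = mu A p σ t * deriv (la A p σ) t := by
    rw [hq]; field_simp
  rw [h.w1_eq t]
  show la A p σ t • p t + _ = _
  rw [smul_add, smul_smul, smul_add, smul_smul, smul_smul, smul_add, smul_smul, smul_smul,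
    ← add_assoc, ← add_smul]
  congr 2
  · linear_combination -s * h1
  · field_simp

theorem ev_inv (h : Cv A p L σ) (hp : ProjInv A p) {F : (Fin 3 → ℝ) → ℝ} {Ω : Set (Fin 3 → ℝ)}
    {J : Set ℝ} (hL : Loc A (w0 A p σ) F Ω J)
    (hr : ∀ t ∈ J, ∀ ε > (0 : ℝ), ∀ᶠ X in 𝓝 (w0 A p σ t), |F X| < ε ∧ ∃ l t' : ℝ, 0 < l ∧
      |t' - t| < ε ∧ X = l • exp (F X • A) (w0 A p σ t')) {t : ℝ} (ht : t ∈ J)
    (htay : (fun s => F (w0 A p σ t + s • w1 A p σ t) + s ^ 2 / 2) =o[𝓝 0] fun s => s ^ 3) :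
    ∃ c : ℝ, ∀ᶠ s in 𝓝 (0 : ℝ), F (w0 A p σ t + s • w1 A p σ t) =
      F (w0 A p σ t + (-(s / (1 + c * s))) • w1 A p σ t) := by
  obtain ⟨κ, ε, hε, H⟩ := hp t
  obtain ⟨q, hq⟩ : ∃ q, q = mu A p σ t * deriv (la A p σ) t / la A p σ t := ⟨_, rfl⟩
  have hμ := h.mu_pos t
  have z0 : w0 A p σ t + (0 : ℝ) • w1 A p σ t = w0 A p σ t := by simp
  refine ⟨2 * q - κ * mu A p σ t, ?_⟩
  have cline : Continuous fun s : ℝ => w0 A p σ t + s • w1 A p σ t := by fun_prop
  -- eventual properties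
  have E1 : ∀ᶠ s in 𝓝 (0 : ℝ), w0 A p σ t + s • w1 A p σ t ∈ Ω :=
    cline.continuousAt.preimage_mem_nhds (hL.Ω_open.mem_nhds (by rw [z0]; exact hL.maps t ht))
  have E2 : ∀ᶠ s in 𝓝 (0 : ℝ), F (w0 A p σ t + s • w1 A p σ t) + s ^ 2 / 2 ≤ |s| ^ 3 := by
    have := isLittleO_iff.mp htay one_pos
    filter_upwards [this] with s hs
    rw [norm_pow, one_mul] at hs
    exact (le_abs_self _).trans hs
  have E3 : ∀ᶠ s in 𝓝 (0 : ℝ), |F (w0 A p σ t + s • w1 A p σ t)| < ε ∧ ∃ l t' : ℝ, 0 < l ∧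
      |t' - t| < ε ∧ w0 A p σ t + s • w1 A p σ t =
        l • exp (F (w0 A p σ t + s • w1 A p σ t) • A) (w0 A p σ t') := by
    have h1 : Tendsto (fun s : ℝ => w0 A p σ t + s • w1 A p σ t) (𝓝 0) (𝓝 (w0 A p σ t)) := by
      have := cline.tendsto 0
      rwa [z0] at this
    exact h1.eventually (hr t ht ε hε)
  have hden : Tendsto (fun s : ℝ => 1 + s * q) (𝓝 0) (𝓝 1) := by
    have : Tendsto (fun s : ℝ => 1 + s * q) (𝓝 0) (𝓝 (1 + 0 * q)) :=
      Continuous.tendsto (by fun_prop) 0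
    simpa using this
  have E4 : ∀ᶠ s in 𝓝 (0 : ℝ), 0 < 1 + s * q := hden.eventually (lt_mem_nhds one_pos)
  have E5 : ∀ᶠ s in 𝓝 (0 : ℝ), |s * mu A p σ t / (1 + s * q)| < ε := by
    have h1 : Tendsto (fun s : ℝ => s * mu A p σ t / (1 + s * q)) (𝓝 0)
        (𝓝 (0 * mu A p σ t / 1)) := by
      refine Tendsto.div ?_ hden one_ne_zero
      exact tendsto_id.mul_const _
    rw [zero_mul, zero_div] at h1
    have := Metric.tendsto_nhds.mp h1 ε hε
    filter_upwards [this] with s hs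
    rwa [Real.dist_eq, sub_zero] at hs
  obtain ⟨η₁, hη₁, hE⟩ := Metric.eventually_nhds_iff.mp
    ((E1.and E2).and ((E3.and E4).and E5))
  set η := min η₁ (1 / 4) with hη
  have hη0 : 0 < η := lt_min hη₁ (by norm_num)
  have hE' : ∀ s, |s| < η → (w0 A p σ t + s • w1 A p σ t ∈ Ω ∧
      F (w0 A p σ t + s • w1 A p σ t) + s ^ 2 / 2 ≤ |s| ^ 3) ∧
      ((|F (w0 A p σ t + s • w1 A p σ t)| < ε ∧ ∃ l t' : ℝ, 0 < l ∧
      |t' - t| < ε ∧ w0 A p σ t + s • w1 A p σ t =
        l • exp (F (w0 A p σ t + s • w1 A p σ t) • A) (w0 A p σ t')) ∧ 0 < 1 + s * q) ∧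
        |s * mu A p σ t / (1 + s * q)| < ε := fun s hs =>
    hE (by rw [Real.dist_eq, sub_zero]; exact hs.trans_le (min_le_left _ _))
  refine proj_of_pairs (h := fun s => F (w0 A p σ t + s • w1 A p σ t)) hη0 (fun s hs => ?_)
    ?_ (fun s hs0 hs => ?_) (fun s s' hs0 hs hs0' hs' heq => ?_)
  · obtain ⟨⟨m, -⟩, -⟩ := hE' s hs
    exact ContinuousAt.comp (g := F) (hL.c1 m).continuousAt cline.continuousAt
  · simp only [z0]
    exact hL.zero t ht
  · obtain ⟨⟨-, m⟩, -⟩ := hE' s hs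
    have h1 : 0 < |s| := abs_pos.mpr hs0
    have h2 : |s| < 1 / 4 := hs.trans_le (min_le_right _ _)
    have h3 : s ^ 2 = |s| ^ 2 := (sq_abs s).symm
    rw [h3] at m
    show F (w0 A p σ t + s • w1 A p σ t) < 0
    nlinarith [mul_pos (mul_pos h1 h1) (sub_pos.mpr h2)]
  · -- the pair
    have as : |s| < η := by rwa [abs_of_pos hs0]
    have as' : |-s'| < η := by rwa [abs_neg, abs_of_pos hs0']
    obtain ⟨-, ⟨⟨f1, l, t₁, l0, t1, x1⟩, d1⟩, e1⟩ := hE' s as
    obtain ⟨-, ⟨⟨f2, l', t₂, l0', t2, x2⟩, d2⟩, e2⟩ := hE' (-s') as'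
    rw [← heq] at x2
    obtain ⟨τ, hτ⟩ : ∃ τ, τ = F (w0 A p σ t + s • w1 A p σ t) := ⟨_, rfl⟩
    rw [← hτ] at x1 x2 f1
    rw [h.pt_form t s hq d1.ne'] at x1
    rw [h.pt_form t (-s') hq d2.ne'] at x2
    have g1 := h.la_sign t
    have pos_ratio : ∀ r, 0 < (la A p σ r)⁻¹ * la A p σ t := fun r => by
      have g2 := h.la_sign r
      have g3 := h.sig2
      have g4 : la A p σ r ≠ 0 := h.la_ne r
      have g5 : (la A p σ r)⁻¹ * la A p σ t = (σ * la A p σ r)⁻¹ * (σ * la A p σ t) := by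
        have : σ ≠ 0 := fun h0 => by rw [h0] at g3; norm_num at g3
        field_simp
      rw [g5]
      exact mul_pos (inv_pos.mpr g2) g1
    have conv : ∀ (l r : ℝ) (X : Fin 3 → ℝ) (a : ℝ), 0 < l →
        (la A p σ t * a) • X = l • exp (τ • A) (w0 A p σ r) →
        exp (τ • A) (p r) = (l⁻¹ * ((la A p σ r)⁻¹ * la A p σ t) * a) • X := by
      intro l r X a hl hX
      have g4 : la A p σ r ≠ 0 := h.la_ne r
      have k1 : w0 A p σ r = la A p σ r • p r := rfl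
      rw [k1, map_smul] at hX
      have k2 : (l⁻¹ * (la A p σ r)⁻¹) • ((la A p σ t * a) • X) =
          (l⁻¹ * (la A p σ r)⁻¹) • (l • la A p σ r • exp (τ • A) (p r)) := by rw [hX]
      rw [smul_smul, smul_smul, smul_smul] at k2
      have k3 : l⁻¹ * (la A p σ r)⁻¹ * l * la A p σ r = 1 := by
        have := hl.ne'
        field_simp
      rw [k3, one_smul] at k2
      rw [← k2]
      congr 1
      ring
    have y1 := conv l t₁ _ _ l0 x1
    have y2 := conv l' t₂ _ _ l0' x2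
    have hx0 : 0 < s * mu A p σ t / (1 + s * q) := div_pos (mul_pos hs0 hμ) d1
    have hd2 : 1 + -s' * q = 1 - s' * q := by ring
    have hy0 : 0 < s' * mu A p σ t / (1 + -s' * q) := div_pos (mul_pos hs0' hμ) d2
    have hfin := H τ (s * mu A p σ t / (1 + s * q)) (s' * mu A p σ t / (1 + -s' * q)) t₁ t₂
      (l⁻¹ * ((la A p σ t₁)⁻¹ * la A p σ t) * (1 + s * q))
      (l'⁻¹ * ((la A p σ t₂)⁻¹ * la A p σ t) * (1 + -s' * q)) f1 hx0
      (by rwa [abs_of_pos hx0] at e1) hy0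
      (by
        rw [neg_mul, neg_div, abs_neg, abs_of_pos] at e2
        · exact e2
        · exact hy0)
      t1 t2 (mul_pos (mul_pos (inv_pos.mpr l0) (pos_ratio t₁)) d1)
      (mul_pos (mul_pos (inv_pos.mpr l0') (pos_ratio t₂)) d2) y1
      (by
        rw [y2]
        congr 1
        rw [neg_mul, neg_div, neg_smul, ← sub_eq_add_neg])
    have hsn := hs0.ne'
    have hsn' := hs0'.ne'
    have hμn := hμ.ne'
    have hd1n := d1.ne'
    have hd2n := d2.ne'
    rw [one_div_div, one_div_div] at hfin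
    have k1 : (1 + s * q) / (s * mu A p σ t) = (1 / s + q) / mu A p σ t := by
      field_simp
    have k2 : (1 + -s' * q) / (s' * mu A p σ t) = (1 / s' - q) / mu A p σ t := by
      field_simp
      ring
    rw [k1, k2, ← sub_div, div_eq_iff hμn] at hfin
    linarith

end Cv

end Pool.Agent.W5h70.PG
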