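import Pool.Agent.W5h70.PG.Main

/-!
# MP_ae5b4e_an: leaves moved by a one-parameter group of projective transformations

Points of `ℝP²` are given by homogeneous coordinates, vectors of `ℝ³ = Fin 3 → ℝ`. The curve `γ` is
given by a smooth `L`-periodic map `p : ℝ → ℝ³` with `det (p, p', p'') ≠ 0` (a closed curve without
inflection points and cusps; every smooth closed strictly convex curve of nonzero curvature has such
a lift). `A` is any linear map of `ℝ³` with `det (p, p', A p) ≠ 0`: the one-parameter group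
`exp (τ A)` of projective transformations moves `γ` transversally, so the curves
`γ_τ = exp (τ A) γ` with `τ` near `0` foliate a neighbourhood of `γ`.
The point of the tangent line at `p t₀` with the projective coordinate `x` is `p t₀ + x p' t₀`.

`ProjectiveInvolutions A p` says that for every `t₀` the involution of the tangent line, which
exchanges the two points of each leaf near `p t₀`, is projective: in the projective coordinate `x`
with `x = 0` at the fixed point this means `1 / x - 1 / y = κ` for the points with the coordinates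
`x` and `-y`.

Conclusion: in suitable linear coordinates `x, y, l` of `ℝ³` the leaf `γ_τ` lies on the conic
`x² + y² = exp (m τ) l²` and is disjoint from the line `l = 0`, for all real `τ`, with a constant
`m ≠ 0`. So `γ` is an ellipse and the leaves are ellipses of one pencil, concentric circles in
the affine coordinates `x / l`, `y / l`.
-/

set_option autoImplicit false

open NormedSpace
open scoped ContDiff

namespace Pool.Agent.Results.MP_ae5b4e_an.ProjectiveGroupLeaves

open Pool.Agent.W5h70.PG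

/-- the one-parameter group `exp (τ A)` of linear maps -/
noncomputable def flow (A : (Fin 3 → ℝ) →L[ℝ] (Fin 3 → ℝ)) (τ : ℝ) (v : Fin 3 → ℝ) : Fin 3 → ℝ :=
  exp (τ • A) v

/-- The leaf `exp (τ A) γ` (its part with parameters at distance less than `ε` from `t₀`) passes
through the point `p t₀ + x p' t₀` of the tangent line at `p t₀`, as a point of `ℝP²`. -/
def Meets (A : (Fin 3 → ℝ) →L[ℝ] (Fin 3 → ℝ)) (p : ℝ → Fin 3 → ℝ) (t₀ ε τ x : ℝ) : Prop :=
  ∃ t r : ℝ, |t - t₀| < ε ∧ 0 < r ∧ flow A τ (p t) = r • (p t₀ + x • deriv p t₀)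

/-- For every `t₀` there are `κ` and `ε > 0` such that any two points with the coordinates `x` and
`-y` on the tangent line at `p t₀`, `0 < x, y < ε`, which lie on one leaf `exp (τ A) γ`, `|τ| < ε`,
satisfy `1 / x - 1 / y = κ`. -/
def ProjectiveInvolutions (A : (Fin 3 → ℝ) →L[ℝ] (Fin 3 → ℝ)) (p : ℝ → Fin 3 → ℝ) : Prop :=
  ∀ t₀ : ℝ, ∃ κ ε : ℝ, 0 < ε ∧ ∀ τ x y : ℝ, |τ| < ε → 0 < x → x < ε → 0 < y → y < ε →
    Meets A p t₀ ε τ x → Meets A p t₀ ε τ (-y) → 1 / x - 1 / y = κ

theorem det_eq (u v w : Fin 3 → ℝ) : (Matrix.of ![u, v, w]).det = det3 u v w := by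
  rw [Matrix.det_fin_three]
  simp only [Matrix.of_apply, Matrix.cons_val_zero, Matrix.cons_val_one, Matrix.cons_val, det3]
  ring

/-- If the leaves are the images of the closed curve `γ` under a one-parameter group of projective
transformations which moves `γ` transversally, and all involutions of the tangent lines of `γ` are
projective, then `γ` is an ellipse and the leaves are ellipses of one pencil. -/
theorem result (p : ℝ → Fin 3 → ℝ) (L : ℝ) (hL : 0 < L) (hsmooth : ContDiff ℝ ∞ p)
    (hper : ∀ t, p (t + L) = p t)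
    (hcurved : ∀ t, (Matrix.of ![p t, deriv p t, deriv (deriv p) t]).det ≠ 0)
    (A : (Fin 3 → ℝ) →L[ℝ] (Fin 3 → ℝ))
    (htrans : ∀ t, (Matrix.of ![p t, deriv p t, A (p t)]).det ≠ 0)
    (hproj : ProjectiveInvolutions A p) :
    ∃ x y l : (Fin 3 → ℝ) →ₗ[ℝ] ℝ, LinearIndependent ℝ ![x, y, l] ∧ ∃ m : ℝ, m ≠ 0 ∧
      ∀ t τ : ℝ, l (flow A τ (p t)) ≠ 0 ∧
        x (flow A τ (p t)) ^ 2 + y (flow A τ (p t)) ^ 2 =
          Real.exp (m * τ) * l (flow A τ (p t)) ^ 2 := by
  refine main hL hsmooth hper (fun t => by rw [← det_eq]; exact hcurved t)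
    (fun t => by rw [← det_eq]; exact htrans t) fun t₀ => ?_
  obtain ⟨κ, ε, hε, H⟩ := hproj t₀
  refine ⟨κ, ε, hε, fun τ x y t₁ t₂ l₁ l₂ h1 h2 h3 h4 h5 h6 h7 h8 h9 h10 h11 =>
    H τ x y h1 h2 h3 h4 h5 ⟨t₁, l₁, h6, h8, h10⟩ ⟨t₂, l₂, h7, h9, ?_⟩⟩
  rw [neg_smul, ← sub_eq_add_neg]
  exact h11

end Pool.Agent.Results.MP_ae5b4e_an.ProjectiveGroupLeaves
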