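import Pool.Agent.W5h70.PG.Alg

set_option autoImplicit false

open Filter Topology Set

namespace Pool.Agent.W5h70.PG

/-- a periodic function with derivative of one sign is constant -/
theorem zero_of_periodic {ν W g : ℝ → ℝ} (hν : ∀ t, 0 < ν t) (h : HD ν W g) (hg : ∀ t, 0 ≤ g t)
    {L : ℝ} (hL : 0 < L) (hper : ∀ t, W (t + L) = W t) (t : ℝ) : g t = 0 := by
  have hmono : Monotone W := by
    apply monotone_of_hasDerivAt_nonneg (f' := fun t => ν t • g t) h
    intro t
    exact mul_nonneg (hν t).le (hg t)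
  have hconst : ∀ s ∈ Ioo (t - L) (t + L), W s = W t := by
    intro s hs
    have h1 : W (t - L) = W t := by
      have := hper (t - L)
      rw [sub_add_cancel] at this
      exact this.symm
    have h2 := hmono hs.1.le
    have h3 := hmono hs.2.le
    rw [hper] at h3
    rw [h1] at h2
    exact le_antisymm h3 h2
  have h1 : HasDerivAt W 0 t := by
    refine (hasDerivAt_const t (W t)).congr_of_eventuallyEq ?_
    filter_upwards [Ioo_mem_nhds (show t - L < t by linarith) (show t < t + L by linarith)]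
      with s hs
    exact hconst s hs
  have h2 := (h t).unique h1
  rw [smul_eq_mul] at h2
  exact (mul_eq_zero.mp h2).resolve_left (hν t).ne'

/-- extrema of a periodic function -/
theorem periodic_extrema {e : ℝ → ℝ} (hc : Continuous e) {L : ℝ} (hL : 0 < L)
    (hper : ∀ t, e (t + L) = e t) : (∃ t₁, ∀ t, e t ≤ e t₁) ∧ ∃ t₂, ∀ t, e t₂ ≤ e t := by
  have hp : Function.Periodic e L := hper
  have hK : IsCompact (Icc (0 : ℝ) L) := isCompact_Icc
  have hne : (Icc (0 : ℝ) L).Nonempty := ⟨0, le_rfl, hL.le⟩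
  have key : ∀ t, ∃ s ∈ Icc (0 : ℝ) L, e s = e t := by
    intro t
    obtain ⟨s, hs, h1⟩ := hp.exists_mem_Ico₀ hL t
    exact ⟨s, ⟨hs.1, hs.2.le⟩, h1.symm⟩
  constructor
  · obtain ⟨t₁, -, h1⟩ := hK.exists_isMaxOn hne hc.continuousOn
    refine ⟨t₁, fun t => ?_⟩
    obtain ⟨s, hs, h2⟩ := key t
    rw [← h2]
    exact h1 hs
  · obtain ⟨t₁, -, h1⟩ := hK.exists_isMinOn hne hc.continuousOn
    refine ⟨t₁, fun t => ?_⟩
    obtain ⟨s, hs, h2⟩ := key t
    rw [← h2]
    exact h1 hs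

theorem HD.continuous {V : Type*} [NormedAddCommGroup V] [NormedSpace ℝ V] {ν : ℝ → ℝ}
    {f g : ℝ → V} (h : HD ν f g) : Continuous f :=
  continuous_iff_continuousAt.mpr fun t => (h t).continuousAt

namespace Fr

variable {A : (Fin 3 → ℝ) →L[ℝ] (Fin 3 → ℝ)} {ν : ℝ → ℝ} {v0 v1 v2 : ℝ → Fin 3 → ℝ}
  {k0 k1 a0 a1 : ℝ → ℝ}

theorem rigid (H : Fr A ν v0 v1 v2 k0 k1 a0 a1)
    {a0' a1' a1'' b0 b1 b0' b1' b1'' k0' k1' b0'' : ℝ → ℝ} (h0 : HD ν a0 a0')
    (h1 : HD ν a1 a1') (h1' : HD ν a1' a1'') (hb0 : ∀ t, b0 t = a0' t + k0 t)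
    (hb1 : ∀ t, b1 t = a0 t + a1' t + k1 t)
    (h2 : HD ν b0 b0') (h2' : HD ν b0' b0'') (h3 : HD ν b1 b1') (h3' : HD ν b1' b1'')
    (hk0 : HD ν k0 k0') (hk1 : HD ν k1 k1')
    (I1 : ∀ t, a0' t - b1' t = -4 * b0 t)
    (I2 : ∀ t, a1' t * b0 t + a1 t * b0' t = 2 * b0 t * (a0 t - b1 t))
    {L : ℝ} (hL : 0 < L) (p0 : ∀ t, a0 (t + L) = a0 t) (p1 : ∀ t, a1 (t + L) = a1 t)
    (p2 : ∀ t, a1' (t + L) = a1' t) (p3 : ∀ t, b0 (t + L) = b0 t) (p4 : ∀ t, b1 (t + L) = b1 t)
    (p5 : ∀ t, b1' (t + L) = b1' t) :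
    ∀ t, a1' t = 0 ∧ b0 t = 0 ∧ b1' t = 0 ∧ a0' t = 0 ∧ k0 t = 0 ∧ k1 t = -(a0 t - b1 t) := by
  have hν : ∀ t, ν t ≠ 0 := fun t => (H.ν_pos t).ne'
  set e : ℝ → ℝ := fun t => a0 t - b1 t with he
  have hev : ∀ t, e t = a0 t - b1 t := fun t => rfl
  have hde : HD ν e (fun t => -4 * b0 t) := (h0.sub h3).congr (fun t => rfl) I1
  have hk1e : ∀ t, k1 t = -a1' t - e t := fun t => by
    have := hb1 t
    rw [hev]
    linarith
  have hk1d : ∀ t, k1' t = -a1'' t + 4 * b0 t := by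
    have h4 : HD ν k1 (fun t => (-1 : ℝ) • a1'' t - (-4 * b0 t)) :=
      ((h1'.const_smul (-1)).sub hde).congr (fun t => by rw [hk1e]; simp) (fun t => rfl)
    intro t
    rw [hk1.unique hν h4 t, smul_eq_mul]
    ring
  have R := H.structure_eqs h0 h1 h1' hb0 hb1 h2 h2' h3 h3' hk0 hk1
  -- the monotone quantity
  have hW : HD ν (fun t => 2 * b0 t + b1' t - 2 * (a1 t * e t) - a1 t * a1' t)
      (fun t => a1' t ^ 2 + 4 * (a1 t * b0 t)) := by
    have h5 := (((h2.const_smul 2).add h3').sub ((h1.mul hde).const_smul 2)).sub (h1.mul h1')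
    refine h5.congr (fun t => by simp only [smul_eq_mul]) (fun t => ?_)
    simp only [smul_eq_mul]
    obtain ⟨R2, -⟩ := R t
    have e1 := hk1d t
    have e2 := hk1e t
    rw [e1] at R2
    have e3 : 2 * b0' t + b1'' t = -(2 * a1' t * k1 t) - a1 t * (-a1'' t + 4 * b0 t) := by
      linarith
    rw [e2] at e3
    linear_combination e3
  -- the constant D
  have hD : ∀ s t, e s ^ 2 + 4 * (a1 s * b0 s) = e t ^ 2 + 4 * (a1 t * b0 t) := by
    have h6 : HD ν (fun t => e t * e t + (4 : ℝ) • (a1 t * b0 t))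
        (fun t => (-4 * b0 t * e t + e t * (-4 * b0 t)) + (4 : ℝ) • (a1' t * b0 t + a1 t * b0' t)) :=
      (hde.mul hde).add ((h1.mul h2).const_smul 4)
    intro s t
    have h7 := h6.const_of_zero (fun t => by
      rw [I2 t, smul_eq_mul, ← hev t]
      ring) s t
    simp only [smul_eq_mul] at h7
    linarith
  have hpe : ∀ t, e (t + L) = e t := fun t => by rw [hev, hev, p0, p4]
  obtain ⟨⟨t₁, ht₁⟩, ⟨t₂, ht₂⟩⟩ := periodic_extrema hde.continuous hL hpe
  have hcrit : ∀ s, IsLocalExtr e s → b0 s = 0 := by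
    intro s hs
    have h8 := hs.hasDerivAt_eq_zero (hde s)
    rw [smul_eq_mul] at h8
    have h9 := (mul_eq_zero.mp h8).resolve_left (hν s)
    linarith
  have hb1z : b0 t₁ = 0 := hcrit t₁ (Or.inr (Eventually.of_forall ht₁))
  have hb2z : b0 t₂ = 0 := hcrit t₂ (Or.inl (Eventually.of_forall ht₂))
  obtain ⟨D, hDe⟩ : ∃ D, D = e t₁ ^ 2 + 4 * (a1 t₁ * b0 t₁) := ⟨_, rfl⟩
  have hDt : ∀ t, e t ^ 2 + 4 * (a1 t * b0 t) = D := fun t => by rw [hDe, hD t t₁]
  have hD1 : e t₁ ^ 2 = D := by have := hDt t₁; rw [hb1z] at this; linarith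
  have hD2 : e t₂ ^ 2 = D := by have := hDt t₂; rw [hb2z] at this; linarith
  have hDe2 : ∀ t, e t ^ 2 ≤ D := by
    intro t
    have h10 := ht₁ t
    have h11 := ht₂ t
    rcases le_total 0 (e t) with h12 | h12
    · rw [← hD1]; nlinarith
    · rw [← hD2]; nlinarith
  have hnn : ∀ t, 0 ≤ a1' t ^ 2 + 4 * (a1 t * b0 t) := fun t => by
    have h13 := hDt t
    have h14 := hDe2 t
    have : 0 ≤ a1' t ^ 2 := sq_nonneg _
    linarith
  have hz := zero_of_periodic H.ν_pos hW hnn hL (fun t => by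
    simp only [p1, p2, p3, p5, hpe])
  have ha1' : ∀ t, a1' t = 0 := fun t => by
    have h15 := hz t
    have h13 := hDt t
    have h14 := hDe2 t
    have h16 : 0 ≤ a1' t ^ 2 := sq_nonneg _
    have h17 : a1' t ^ 2 = 0 := by linarith
    exact pow_eq_zero_iff (two_ne_zero) |>.mp h17
  have he2 : ∀ t, e t ^ 2 = D := fun t => by
    have h15 := hz t
    have h13 := hDt t
    rw [ha1' t] at h15
    nlinarith
  have hb0z : ∀ t, b0 t = 0 := by
    have h18 : HD ν (fun t => e t * e t) (fun t => (-4 * b0 t) * e t + e t * (-4 * b0 t)) :=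
      hde.mul hde
    have h19 : HD ν (fun t => e t * e t) (fun _ => 0) := fun t => by
      have h20 : (fun t => e t * e t) = fun _ => D := by
        funext t; rw [← he2 t]; ring
      rw [h20, smul_zero]
      exact hasDerivAt_const t D
    intro t
    have h21 := h18.unique hν h19 t
    have h22 : b0 t * e t = 0 := by linarith
    rcases mul_eq_zero.mp h22 with h23 | h23
    · exact h23
    · have hD0 : D = 0 := by rw [← he2 t, h23]; ring
      have h24 : ∀ s, e s = 0 := fun s => by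
        have := he2 s
        rw [hD0] at this
        exact pow_eq_zero_iff (two_ne_zero) |>.mp this
      have h25 : HD ν e (fun _ => 0) := fun s => by
        have h26 : e = fun _ => 0 := funext h24
        rw [h26, smul_zero]
        exact hasDerivAt_const s 0
      have h27 := hde.unique hν h25 t
      linarith
  have ha1'' : ∀ t, a1'' t = 0 := fun t => by
    have h25 : HD ν a1' (fun _ => 0) := fun s => by
      have h26 : a1' = fun _ => 0 := funext ha1'
      rw [h26, smul_zero]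
      exact hasDerivAt_const s 0
    exact h1'.unique hν h25 t
  intro t
  obtain ⟨-, R3⟩ := R t
  have i1 := I1 t
  have i2 := hb0 t
  have i3 := hb0z t
  have i4 := ha1'' t
  have i5 := ha1' t
  have i6 : k0 t = b0 t - a0' t := by linarith
  have i7 : b1' t = 0 := by linarith
  have i8 : a0' t = 0 := by linarith
  refine ⟨i5, i3, i7, i8, by linarith, ?_⟩
  have i9 := hk1e t
  rw [i5] at i9
  rw [i9, ← hev]
  ring

end Fr

end Pool.Agent.W5h70.PG
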